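import Pool.Agent.RZ.Stmts

set_option autoImplicit false

namespace Pool.Agent.RZ

open Finset

open Pool.Agent.ChromA2 (Indep N N_succ N_zero N_empty)

theorem t_CHN : Stmt_CHN := by
  intro V _ _ G _ S a b
  induction b generalizing S with
  | zero =>
    rw [Finset.sum_eq_single S]
    · rw [Finset.sdiff_self, N_empty, mul_one, add_zero]
    · intro T hT hne
      have hne2 : (S \ T).Nonempty := by
        rw [Finset.sdiff_nonempty]
        intro h
        exact hne (Finset.Subset.antisymm (Finset.mem_powerset.1 hT) h)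
      rw [N_zero G hne2, mul_zero]
    · intro h
      exact absurd (Finset.mem_powerset_self S) h
  | succ b ih =>
    have e : a + (b + 1) = (a + b) + 1 := by ring
    rw [e, N_succ]
    have h1 : ∀ I ∈ S.powerset.filter (fun I => Indep G I), N G (S \ I) (a + b) =
        ∑ T ∈ (S \ I).powerset, N G T a * N G ((S \ I) \ T) b := fun I _ => ih (S \ I)
    have h2 : ∀ T ∈ S.powerset, N G T a * N G (S \ T) (b + 1) =
        ∑ I ∈ (S \ T).powerset.filter (fun I => Indep G I), N G T a * N G ((S \ I) \ T) b := by
      intro T _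
      rw [N_succ, Finset.mul_sum]
      apply Finset.sum_congr rfl
      intro I _
      rw [sdiff_right_comm]
    rw [Finset.sum_congr rfl h1, Finset.sum_congr rfl h2]
    apply Finset.sum_comm'
    intro I T
    simp only [Finset.mem_filter, Finset.mem_powerset, Finset.subset_sdiff]
    constructor
    · rintro ⟨⟨h1, h2⟩, h3, h4⟩
      exact ⟨⟨⟨h1, h4.symm⟩, h2⟩, h3⟩
    · rintro ⟨⟨⟨h1, h4⟩, h2⟩, h3⟩
      exact ⟨⟨h1, h2⟩, h3, h4.symm⟩

end Pool.Agent.RZ
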