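import Mathlib
import Pool.Agent.Lib_helper95.ChromA2.Count

set_option autoImplicit false

namespace Pool.Agent.RZ

open Finset

open Pool.Agent.ChromA2 (Indep N)

section Defs

variable {V : Type} [Fintype V] [DecidableEq V] (G : SimpleGraph V) [DecidableRel G.Adj]

/-- `ch S t` is the value at the real number `t` of the chromatic polynomial of `G[S]` -/
structure IsCh (ch : Finset V → ℝ → ℝ) : Prop where
  empty : ∀ t : ℝ, ch ∅ t = 1
  zero : ∀ S : Finset V, S.Nonempty → ch S 0 = 0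
  rec1 : ∀ (S : Finset V) (t : ℝ),
    ch S t = ∑ I ∈ S.powerset.filter (fun I => Indep G I), ch (S \ I) (t - 1)
  rec2 : ∀ (S : Finset V) (v : V), v ∈ S → ∀ t : ℝ,
    ch S t = t * ∑ I ∈ S.powerset.filter (fun I => Indep G I ∧ v ∈ I), ch (S \ I) (t - 1)
  vand : ∀ (S : Finset V) (a b : ℝ), ch S (a + b) = ∑ T ∈ S.powerset, ch T a * ch (S \ T) b
  nat : ∀ (S : Finset V) (n : ℕ), ch S (n : ℝ) = (N G S n : ℝ)

/-- one extra colour class, which avoids `X` -/
noncomputable def R (ch : Finset V → ℝ → ℝ) (H X : Finset V) (t : ℝ) : ℝ :=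
  ∑ I ∈ (H \ X).powerset.filter (fun I => Indep G I), ch (H \ I) (t - 1)

/-- signed version at `t = 0` -/
noncomputable def sg (ch : Finset V → ℝ → ℝ) (T X : Finset V) : ℝ :=
  (-1) ^ T.card * R G ch T X 0

/-- the properties of `sg` -/
structure IsS (s : Finset V → Finset V → ℝ) : Prop where
  empty : ∀ X : Finset V, s ∅ X = 1
  nonempty : ∀ T : Finset V, T.Nonempty → s T ∅ = 0
  off : ∀ (T X : Finset V) (u : V), u ∉ T → s T (insert u X) = s T X
  step : ∀ (T X : Finset V) (u : V), u ∈ T → u ∉ X →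
    s T (insert u X) = s T X + s (T.erase u) (X ∪ G.neighborFinset u)
  nonneg : ∀ T X : Finset V, 0 ≤ s T X

/-- proper colourings of `G[U]` from the lists `L`; value `0` off `U` -/
def LC (U : Finset V) (L : V → Finset ℕ) : Finset (V → ℕ) :=
  (Fintype.piFinset (fun v => if v ∈ U then L v else {0})).filter
    (fun c => ∀ u ∈ U, ∀ v ∈ U, G.Adj u v → c u ≠ c v)

/-- remove the colour `c` from the lists of the vertices in `W` -/
def rm (L : V → Finset ℕ) (W : Finset V) (c : ℕ) : V → Finset ℕ :=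
  fun v => if v ∈ W then (L v).erase c else L v

/-- list colourings with `t` additional generic colours -/
noncomputable def Z (ch : Finset V → ℝ → ℝ) (t : ℝ) (U : Finset V) (L : V → Finset ℕ) : ℝ :=
  ∑ T ∈ U.powerset, ch T t * ((LC G (U \ T) L).card : ℝ)

/-- the properties of `Z` -/
structure IsZ (s : Finset V → Finset V → ℝ) (t : ℝ)
    (Z : Finset V → (V → Finset ℕ) → ℝ) : Prop where
  congr : ∀ (U : Finset V) (L L' : V → Finset ℕ), (∀ v ∈ U, L v = L' v) → Z U L = Z U L'
  empty : ∀ L : V → Finset ℕ, Z ∅ L = 1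
  step : ∀ (U : Finset V) (L : V → Finset ℕ) (v : V), v ∈ U →
    Z U L = ∑ c ∈ L v, Z (U.erase v) (rm L (G.neighborFinset v) c)
      + t * ∑ T ∈ (U.erase v).powerset,
          (-1) ^ T.card * s T (G.neighborFinset v) * Z ((U.erase v) \ T) L
  split : ∀ (U : Finset V) (L : V → Finset ℕ) (u : V) (c : ℕ), u ∈ U → c ∈ L u →
    Z U L = Z U (rm L {u} c) + Z (U.erase u) (rm L (G.neighborFinset u) c)

end Defs

end Pool.Agent.RZ
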