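import Mathlib
import Pool.Agent.Lib_helper95.ChromA2.Count
import Pool.Agent.Lib_helper95.ChromA2.Poly
import Pool.Agent.RZ.Defs

set_option autoImplicit false

namespace Pool.Agent.RZ

open Finset

open Pool.Agent.ChromA2 (Indep N)

/-- Vandermonde for numbers of proper colourings -/
def Stmt_CHN : Prop := ∀ (V : Type) [Fintype V] [DecidableEq V] (G : SimpleGraph V)
  [DecidableRel G.Adj] (S : Finset V) (a b : ℕ),
  N G S (a + b) = ∑ T ∈ S.powerset, N G T a * N G (S \ T) b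

/-- existence of `ch` and identification with the chromatic polynomial -/
def Stmt_CHP : Prop := ∀ (V : Type) [Fintype V] [DecidableEq V] (G : SimpleGraph V)
  [DecidableRel G.Adj],
  ∃ ch : Finset V → ℝ → ℝ, IsCh G ch ∧ ∀ p : Polynomial ℝ,
    (∀ n : ℕ, p.eval (n : ℝ) = (Nat.card (G.Coloring (Fin n)) : ℝ)) →
    ∀ x : ℝ, p.eval x = ch univ x

def Stmt_RR : Prop := ∀ (V : Type) [Fintype V] [DecidableEq V] (G : SimpleGraph V)
  [DecidableRel G.Adj] (ch : Finset V → ℝ → ℝ), IsCh G ch →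
  (∀ (S : Finset V) (v : V), v ∈ S → ∀ t : ℝ,
    ch S t = t * R G ch (S.erase v) (G.neighborFinset v) t) ∧
  (∀ (H X : Finset V) (t : ℝ),
    R G ch H X t = ∑ T ∈ H.powerset, R G ch T X 0 * ch (H \ T) t)

def Stmt_SS : Prop := ∀ (V : Type) [Fintype V] [DecidableEq V] (G : SimpleGraph V)
  [DecidableRel G.Adj] (ch : Finset V → ℝ → ℝ), IsCh G ch → IsS G (sg G ch)

def Stmt_LC : Prop := ∀ (V : Type) [Fintype V] [DecidableEq V] (G : SimpleGraph V)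
  [DecidableRel G.Adj],
  (∀ L : V → Finset ℕ, (LC G ∅ L).card = 1) ∧
  (∀ (U : Finset V) (L L' : V → Finset ℕ), (∀ v ∈ U, L v = L' v) → LC G U L = LC G U L') ∧
  (∀ (U : Finset V) (L : V → Finset ℕ) (v : V), v ∈ U →
    (LC G U L).card = ∑ c ∈ L v, (LC G (U.erase v) (rm L (G.neighborFinset v) c)).card) ∧
  (∀ (U : Finset V) (L : V → Finset ℕ) (u : V) (c : ℕ), u ∈ U → c ∈ L u →
    (LC G U L).card = (LC G U (rm L {u} c)).card
      + (LC G (U.erase u) (rm L (G.neighborFinset u) c)).card) ∧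
  (∀ (U : Finset V) (n : ℕ), (LC G U (fun _ => Finset.Icc 1 n)).card = N G U n)

def Stmt_ZD : Prop := ∀ (V : Type) [Fintype V] [DecidableEq V] (G : SimpleGraph V)
  [DecidableRel G.Adj] (ch : Finset V → ℝ → ℝ), IsCh G ch → ∀ t : ℝ,
  IsZ G (sg G ch) t (Z G ch t) ∧
  ∀ (U : Finset V) (n : ℕ), Z G ch t U (fun _ => Finset.Icc 1 n) = ch U (t + n)

def Stmt_MI : Prop := ∀ (V : Type) [Fintype V] [DecidableEq V] (G : SimpleGraph V)
  [DecidableRel G.Adj] (s : Finset V → Finset V → ℝ) (t m : ℝ)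
  (Z : Finset V → (V → Finset ℕ) → ℝ), 0 ≤ t → 0 < m → IsS G s → IsZ G s t Z →
  (∀ (U : Finset V) (v : V), v ∉ U →
    ∑ T ∈ U.powerset.filter (fun T => Odd T.card),
      s T (G.neighborFinset v) * (1 / m) ^ T.card ≤ 1) →
  ∀ (U : Finset V) (L : V → Finset ℕ),
    (∀ u ∈ U, m + ((G.neighborFinset u ∩ U).card : ℝ) ≤ ((L u).card : ℝ)) → 0 < Z U L

def Stmt_ODD : Prop := ∀ (V : Type) [Fintype V] [DecidableEq V] (G : SimpleGraph V)
  [DecidableRel G.Adj] (s : Finset V → Finset V → ℝ) (z A B : ℝ) (D : ℕ), 1 ≤ D →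
  (∀ v : V, (G.neighborFinset v).card ≤ D) → 0 ≤ z → 0 ≤ B → B ≤ 1 → B ≤ A →
  z * (1 + A) ^ (D - 1) ≤ A → z * (1 - B) ^ (D - 1) = B → IsS G s →
  ∀ (U : Finset V) (v : V), v ∉ U →
    ∑ T ∈ U.powerset.filter (fun T => Odd T.card), s T (G.neighborFinset v) * z ^ T.card
      ≤ ((1 + A) ^ D - (1 - B) ^ D) / 2

def Stmt_NUMB : Prop := ∀ (D : ℕ) (m : ℝ), 1 ≤ D → Real.exp 1 * D - 1 ≤ m →
  0 < m ∧ ∃ A B : ℝ, 0 ≤ B ∧ B ≤ 1 ∧ B ≤ A ∧ 1 / m * (1 + A) ^ (D - 1) ≤ A ∧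
    1 / m * (1 - B) ^ (D - 1) = B ∧ (1 + A) ^ D - (1 - B) ^ D ≤ 2

end Pool.Agent.RZ
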