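import Mathlib
import Pool.Agent.RZ.Stmts

set_option autoImplicit false

namespace Pool.Agent.RZ

open Finset Polynomial

open Pool.Agent.ChromA2 (Indep N N_succ N_zero N_empty N_rec card_coloring)

namespace CHP

section

variable {V : Type} [Fintype V] [DecidableEq V] (G : SimpleGraph V) [DecidableRel G.Adj]

theorem exists_poly : ∀ S : Finset V, ∃ p : ℝ[X], ∀ n : ℕ, p.eval (n : ℝ) = (N G S n : ℝ) := by
  classical
  intro S
  induction S using Finset.strongInduction with
  | H S ih =>
    rcases S.eq_empty_or_nonempty with rfl | ⟨v, hv⟩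
    · exact ⟨1, fun n => by simp [N_empty]⟩
    · have hlt : ∀ I ∈ S.powerset.filter (fun I => Indep G I ∧ v ∈ I), S \ I ⊂ S := by
        intro I hI
        rw [Finset.mem_filter] at hI
        refine Finset.ssubset_iff_subset_ne.2 ⟨Finset.sdiff_subset, fun hh => ?_⟩
        have : v ∈ S \ I := by rw [hh]; exact hv
        exact (Finset.mem_sdiff.1 this).2 hI.2.2
      choose! p hp using ih
      refine ⟨X * ∑ I ∈ S.powerset.filter (fun I => Indep G I ∧ v ∈ I),
        (p (S \ I)).comp (X - C 1), ?_⟩
      intro n
      rcases n with _ | n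
      · rw [N_zero G ⟨v, hv⟩]
        simp
      · rw [N_rec G n S v hv, eval_mul, eval_X, eval_finsetSum]
        push_cast
        congr 1
        apply Finset.sum_congr rfl
        intro I hI
        rw [eval_comp, eval_sub, eval_X, eval_C, ← hp _ (hlt I hI) n]
        congr 1
        ring

/-- the chromatic polynomial of `G[S]` -/
noncomputable def P (S : Finset V) : ℝ[X] := Classical.choose (exists_poly G S)

theorem P_eval (S : Finset V) (n : ℕ) : (P G S).eval (n : ℝ) = (N G S n : ℝ) :=
  Classical.choose_spec (exists_poly G S) n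

theorem poly_ext {p q : ℝ[X]} (h : ∀ n : ℕ, p.eval (n : ℝ) = q.eval (n : ℝ)) : p = q := by
  apply Polynomial.eq_of_infinite_eval_eq
  refine Set.Infinite.mono (s := Set.range (fun n : ℕ => (n : ℝ))) ?_
    (Set.infinite_range_of_injective Nat.cast_injective)
  rintro _ ⟨n, rfl⟩
  exact h n

/-- equality at the positive naturals is enough -/
theorem poly_ext_succ {p q : ℝ[X]}
    (h : ∀ n : ℕ, p.eval ((n : ℝ) + 1) = q.eval ((n : ℝ) + 1)) : p = q := by
  apply Polynomial.eq_of_infinite_eval_eq
  refine Set.Infinite.mono (s := Set.range (fun n : ℕ => (n : ℝ) + 1)) ?_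
    (Set.infinite_range_of_injective (fun a b hab => Nat.cast_injective (add_right_cancel hab)))
  rintro _ ⟨n, rfl⟩
  exact h n

theorem isCh (h : Stmt_CHN) : IsCh G (fun S t => (P G S).eval t) where
  empty := by
    intro t
    have : P G (∅ : Finset V) = 1 := by
      apply poly_ext
      intro n
      rw [P_eval, N_empty]
      simp
    show (P G (∅ : Finset V)).eval t = 1
    rw [this, eval_one]
  zero := by
    intro S hS
    show (P G S).eval 0 = 0
    have := P_eval G S 0
    rw [N_zero G hS] at this
    simpa using this
  rec1 := by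
    intro S t
    have : P G S = ∑ I ∈ S.powerset.filter (fun I => Indep G I),
        (P G (S \ I)).comp (X - C 1) := by
      apply poly_ext_succ
      intro n
      have e : ((n : ℝ) + 1) = ((n + 1 : ℕ) : ℝ) := by push_cast; ring
      rw [e, P_eval, N_succ, eval_finsetSum]
      push_cast
      apply Finset.sum_congr rfl
      intro I _
      rw [eval_comp, eval_sub, eval_X, eval_C, ← P_eval]
      congr 1
      ring
    show (P G S).eval t = ∑ I ∈ S.powerset.filter (fun I => Indep G I), (P G (S \ I)).eval (t - 1)
    rw [this, eval_finsetSum]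
    apply Finset.sum_congr rfl
    intro I _
    rw [eval_comp, eval_sub, eval_X, eval_C]
  rec2 := by
    intro S v hv t
    have : P G S = X * ∑ I ∈ S.powerset.filter (fun I => Indep G I ∧ v ∈ I),
        (P G (S \ I)).comp (X - C 1) := by
      apply poly_ext_succ
      intro n
      have e : ((n : ℝ) + 1) = ((n + 1 : ℕ) : ℝ) := by push_cast; ring
      rw [e, P_eval, N_rec G n S v hv, eval_mul, eval_X, eval_finsetSum]
      push_cast
      congr 1
      apply Finset.sum_congr rfl
      intro I _
      rw [eval_comp, eval_sub, eval_X, eval_C, ← P_eval]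
      congr 1
      ring
    show (P G S).eval t = t * ∑ I ∈ S.powerset.filter (fun I => Indep G I ∧ v ∈ I),
      (P G (S \ I)).eval (t - 1)
    rw [this, eval_mul, eval_X, eval_finsetSum]
    congr 1
    apply Finset.sum_congr rfl
    intro I _
    rw [eval_comp, eval_sub, eval_X, eval_C]
  vand := by
    intro S a b
    -- first for natural `b`
    have h1 : ∀ (b : ℕ) (a : ℝ), (P G S).eval (a + b) =
        ∑ T ∈ S.powerset, (P G T).eval a * (P G (S \ T)).eval (b : ℝ) := by
      intro b a
      have h2 : (P G S).comp (X + C (b : ℝ)) =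
          ∑ T ∈ S.powerset, P G T * C ((P G (S \ T)).eval (b : ℝ)) := by
        apply poly_ext
        intro n
        rw [eval_comp, eval_add, eval_X, eval_C, eval_finsetSum]
        have e : ((n : ℝ) + (b : ℝ)) = ((n + b : ℕ) : ℝ) := by push_cast; ring
        rw [e, P_eval, h V G S n b]
        push_cast
        apply Finset.sum_congr rfl
        intro T _
        rw [eval_mul, eval_C, P_eval, P_eval]
      have h3 := congrArg (fun p => p.eval a) h2
      rw [eval_comp, eval_add, eval_X, eval_C, eval_finsetSum] at h3
      rw [h3]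
      apply Finset.sum_congr rfl
      intro T _
      rw [eval_mul, eval_C]
    -- then for all real `b`
    have h2 : (P G S).comp (C a + X) = ∑ T ∈ S.powerset, C ((P G T).eval a) * P G (S \ T) := by
      apply poly_ext
      intro n
      rw [eval_comp, eval_add, eval_X, eval_C, eval_finsetSum, h1 n a]
      apply Finset.sum_congr rfl
      intro T _
      rw [eval_mul, eval_C]
    have h3 := congrArg (fun p => p.eval b) h2
    rw [eval_comp, eval_add, eval_X, eval_C, eval_finsetSum] at h3
    show (P G S).eval (a + b) = ∑ T ∈ S.powerset, (P G T).eval a * (P G (S \ T)).eval b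
    rw [h3]
    apply Finset.sum_congr rfl
    intro T _
    rw [eval_mul, eval_C]
  nat := fun S n => P_eval G S n

end

end CHP

open CHP in
theorem t_CHP (h : Stmt_CHN) : Stmt_CHP := by
  intro V _ _ G _
  refine ⟨fun S t => (P G S).eval t, isCh G h, ?_⟩
  intro p hp x
  have : p = P G univ := by
    apply poly_ext
    intro n
    rw [hp n, card_coloring, P_eval]
  show p.eval x = (P G univ).eval x
  rw [this]

end Pool.Agent.RZ
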