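import Mathlib
import Pool.Agent.RZ.Stmts

set_option autoImplicit false

namespace Pool.Agent.RZ

open Finset

open Pool.Agent.ChromA2 (Indep N)

namespace LC

variable {V : Type} [Fintype V] [DecidableEq V] (G : SimpleGraph V) [DecidableRel G.Adj]

theorem mem_LC {U : Finset V} {L : V → Finset ℕ} {c : V → ℕ} :
    c ∈ RZ.LC G U L ↔ (∀ v ∈ U, c v ∈ L v) ∧ (∀ v, v ∉ U → c v = 0) ∧
      ∀ u ∈ U, ∀ v ∈ U, G.Adj u v → c u ≠ c v := by
  unfold RZ.LC
  rw [Finset.mem_filter, Fintype.mem_piFinset, ← and_assoc]
  refine and_congr_left fun _ => ?_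
  constructor
  · intro h
    refine ⟨fun v hv => ?_, fun v hv => ?_⟩
    · have := h v
      rw [if_pos hv] at this
      exact this
    · have := h v
      rw [if_neg hv] at this
      exact Finset.mem_singleton.1 this
  · rintro ⟨h1, h2⟩ v
    by_cases hv : v ∈ U
    · rw [if_pos hv]; exact h1 v hv
    · rw [if_neg hv]; exact Finset.mem_singleton.2 (h2 v hv)

/-- the colourings with a given colour at one vertex -/
theorem fibre (U : Finset V) (L : V → Finset ℕ) (v : V) (k : ℕ) (hv : v ∈ U) (hk : k ∈ L v) :
    ((RZ.LC G U L).filter (fun c => c v = k)).card =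
      (RZ.LC G (U.erase v) (rm L (G.neighborFinset v) k)).card := by
  apply Finset.card_nbij' (fun c => Function.update c v 0) (fun c => Function.update c v k)
  · intro c hc
    rw [Finset.mem_coe, Finset.mem_filter, mem_LC] at hc
    obtain ⟨⟨h1, h2, h3⟩, hcv⟩ := hc
    rw [Finset.mem_coe, mem_LC]
    beta_reduce
    refine ⟨fun u hu => ?_, fun u hu => ?_, fun u hu w hw huw => ?_⟩
    · rw [Finset.mem_erase] at hu
      rw [Function.update_of_ne hu.1]
      unfold rm
      by_cases hn : u ∈ G.neighborFinset v
      · rw [if_pos hn, Finset.mem_erase]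
        refine ⟨fun h => ?_, h1 u hu.2⟩
        rw [SimpleGraph.mem_neighborFinset] at hn
        exact h3 v hv u hu.2 hn (hcv.trans h.symm)
      · rw [if_neg hn]; exact h1 u hu.2
    · by_cases huv : u = v
      · rw [huv, Function.update_self]
      · rw [Function.update_of_ne huv]
        exact h2 u fun h => hu (Finset.mem_erase.2 ⟨huv, h⟩)
    · rw [Finset.mem_erase] at hu hw
      rw [Function.update_of_ne hu.1, Function.update_of_ne hw.1]
      exact h3 u hu.2 w hw.2 huw
  · intro c hc
    rw [Finset.mem_coe, mem_LC] at hc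
    obtain ⟨h1, h2, h3⟩ := hc
    rw [Finset.mem_coe, Finset.mem_filter, mem_LC]
    have key : ∀ u ∈ U, u ≠ v → c u ∈ L u ∧ (G.Adj v u → c u ≠ k) := by
      intro u hu huv
      have h := h1 u (Finset.mem_erase.2 ⟨huv, hu⟩)
      unfold rm at h
      by_cases hn : u ∈ G.neighborFinset v
      · rw [if_pos hn, Finset.mem_erase] at h
        exact ⟨h.2, fun _ => h.1⟩
      · rw [if_neg hn] at h
        exact ⟨h, fun ha => absurd ((G.mem_neighborFinset v u).2 ha) hn⟩
    beta_reduce
    refine ⟨⟨fun u hu => ?_, fun u hu => ?_, fun u hu w hw huw => ?_⟩, ?_⟩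
    · by_cases huv : u = v
      · rw [huv, Function.update_self]; exact hk
      · rw [Function.update_of_ne huv]; exact (key u hu huv).1
    · have huv : u ≠ v := fun h => hu (h ▸ hv)
      rw [Function.update_of_ne huv]
      exact h2 u fun h => hu (Finset.mem_erase.1 h).2
    · by_cases huv : u = v
      · have hwv : w ≠ v := fun h => G.loopless.irrefl v (by rw [huv, h] at huw; exact huw)
        rw [huv, Function.update_self, Function.update_of_ne hwv]
        exact fun h => (key w hw hwv).2 (huv ▸ huw) h.symm
      · by_cases hwv : w = v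
        · rw [hwv, Function.update_self, Function.update_of_ne huv]
          exact (key u hu huv).2 (hwv ▸ huw.symm)
        · rw [Function.update_of_ne huv, Function.update_of_ne hwv]
          exact h3 u (Finset.mem_erase.2 ⟨huv, hu⟩) w (Finset.mem_erase.2 ⟨hwv, hw⟩) huw
    · exact Function.update_self v k c
  · intro c hc
    rw [Finset.mem_coe, Finset.mem_filter] at hc
    simp only [Function.update_idem]
    rw [← hc.2]
    exact Function.update_eq_self v c
  · intro c hc
    rw [Finset.mem_coe, mem_LC] at hc
    simp only [Function.update_idem]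
    rw [← hc.2.1 v (Finset.notMem_erase v U)]
    exact Function.update_eq_self v c

end LC

open LC in
theorem t_LC : Stmt_LC := by
  intro V _ _ G _
  refine ⟨fun L => ?_, fun U L L' h => ?_, fun U L v hv => ?_, fun U L u k hu hk => ?_,
    fun U n => ?_⟩
  · rw [Finset.card_eq_one]
    refine ⟨fun _ => 0, ?_⟩
    ext c
    rw [mem_LC, Finset.mem_singleton]
    constructor
    · rintro ⟨-, h, -⟩
      funext v
      exact h v (Finset.notMem_empty v)
    · rintro rfl
      exact ⟨fun v hv => absurd hv (Finset.notMem_empty v), fun _ _ => rfl,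
        fun u hu => absurd hu (Finset.notMem_empty u)⟩
  · ext c
    rw [mem_LC, mem_LC]
    refine and_congr_left fun _ => forall₂_congr fun v hv => ?_
    rw [h v hv]
  · rw [Finset.card_eq_sum_card_fiberwise (f := fun c => c v) (t := L v)]
    · exact Finset.sum_congr rfl fun k hk => fibre G U L v k hv hk
    · intro c hc
      rw [Finset.mem_coe, mem_LC] at hc
      exact hc.1 v hv
  · rw [← fibre G U L u k hu hk,
      ← Finset.card_filter_add_card_filter_not (s := RZ.LC G U L) (fun c => c u = k), add_comm]
    congr 1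
    congr 1
    ext c
    rw [Finset.mem_filter, mem_LC, mem_LC]
    constructor
    · rintro ⟨⟨h1, h2, h3⟩, h4⟩
      refine ⟨fun v hv => ?_, h2, h3⟩
      unfold rm
      by_cases hvu : v ∈ ({u} : Finset V)
      · rw [if_pos hvu, Finset.mem_erase]
        refine ⟨?_, h1 v hv⟩
        rw [Finset.mem_singleton.1 hvu]
        exact h4
      · rw [if_neg hvu]
        exact h1 v hv
    · rintro ⟨h1, h2, h3⟩
      have key : ∀ v ∈ U, c v ∈ L v ∧ (v = u → c v ≠ k) := by
        intro v hv
        have h := h1 v hv
        unfold rm at h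
        by_cases hvu : v ∈ ({u} : Finset V)
        · rw [if_pos hvu, Finset.mem_erase] at h
          exact ⟨h.2, fun _ => h.1⟩
        · rw [if_neg hvu] at h
          exact ⟨h, fun he => absurd (Finset.mem_singleton.2 he) hvu⟩
      exact ⟨⟨fun v hv => (key v hv).1, h2, h3⟩, (key u hu).2 rfl⟩
  · unfold N
    congr 1
    ext c
    rw [mem_LC, ChromA2.mem_cols]
    constructor
    · rintro ⟨h1, h2, h3⟩
      refine ⟨fun v => ?_, fun v => ?_, h3⟩
      · by_cases hv : v ∈ U
        · exact (Finset.mem_Icc.1 (h1 v hv)).2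
        · rw [h2 v hv]; exact Nat.zero_le _
      · constructor
        · intro h0 hv
          have := (Finset.mem_Icc.1 (h1 v hv)).1
          omega
        · exact h2 v
    · rintro ⟨h1, h2, h3⟩
      refine ⟨fun v hv => ?_, fun v hv => (h2 v).2 hv, h3⟩
      rw [Finset.mem_Icc]
      refine ⟨Nat.one_le_iff_ne_zero.2 fun h => ?_, h1 v⟩
      exact (h2 v).1 h hv

end Pool.Agent.RZ
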