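import Mathlib
import Pool.Agent.RZ.Stmts

set_option autoImplicit false

namespace Pool.Agent.RZ.MAIN

open Finset Pool.Agent.RZ

theorem posD (hCHP : Stmt_CHP) (hSS : Stmt_SS) (hZD : Stmt_ZD) (hMI : Stmt_MI)
    (hODD : Stmt_ODD) (hNUMB : Stmt_NUMB)
    (V : Type) [Fintype V] [DecidableEq V] (G : SimpleGraph V) [DecidableRel G.Adj]
    (p : Polynomial ℝ)
    (hp : ∀ n : ℕ, p.eval (n : ℝ) = (Nat.card (G.Coloring (Fin n)) : ℝ))
    (D : ℕ) (hD1 : 1 ≤ D) (hD : ∀ v : V, (G.neighborFinset v).card ≤ D)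
    (x : ℝ) (hx : (1 + Real.exp 1) * D ≤ x) : 0 < p.eval x := by
  obtain ⟨ch, hch, hpch⟩ := hCHP V G
  rw [hpch p hp x]
  have he : 2 < Real.exp 1 := by
    have := Real.exp_one_gt_d9
    linarith
  have hD1' : (1 : ℝ) ≤ D := by exact_mod_cast hD1
  have hx0 : 0 ≤ x := by nlinarith
  set n := ⌊x⌋₊ with hn
  have h1 : (n : ℝ) ≤ x := Nat.floor_le hx0
  have h2 : x < n + 1 := Nat.lt_floor_add_one x
  set t : ℝ := x - n with ht
  have ht0 : 0 ≤ t := by rw [ht]; linarith
  set m : ℝ := n - D with hm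
  have hm1 : Real.exp 1 * D - 1 ≤ m := by rw [hm]; nlinarith
  obtain ⟨hm0, A, B, hB0, hB1, hBA, hA, hB, hAB⟩ := hNUMB D m hD1 hm1
  have hS := hSS V G ch hch
  obtain ⟨hZ, hZn⟩ := hZD V G ch hch t
  have key := hMI V G (sg G ch) t m (Z G ch t) ht0 hm0 hS hZ (fun U v hv => by
    have := hODD V G (sg G ch) (1 / m) A B D hD1 hD (by positivity) hB0 hB1 hBA hA hB hS U v hv
    linarith) univ (fun _ => Finset.Icc 1 n) (fun u _ => by
      have h3 : ((G.neighborFinset u ∩ univ).card : ℝ) ≤ D := by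
        rw [Finset.inter_univ]
        exact_mod_cast hD u
      have h4 : ((Finset.Icc 1 n).card : ℝ) = n := by
        rw [Nat.card_Icc]; push_cast; simp
      rw [h4, hm]
      linarith)
  rw [hZn univ n] at key
  have h5 : t + n = x := by rw [ht]; ring
  rwa [h5] at key

theorem pos0 (V : Type) [Fintype V] [DecidableEq V] (G : SimpleGraph V)
    (p : Polynomial ℝ)
    (hp : ∀ n : ℕ, p.eval (n : ℝ) = (Nat.card (G.Coloring (Fin n)) : ℝ))
    (h0 : ∀ u v : V, ¬ G.Adj u v) (x : ℝ) (hx : 0 < x) : 0 < p.eval x := by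
  have h1 : p = Polynomial.X ^ (Fintype.card V) := by
    apply Polynomial.eq_of_infinite_eval_eq
    refine Set.Infinite.mono (s := Set.range (fun n : ℕ => (n : ℝ))) ?_
      (Set.infinite_range_of_injective Nat.cast_injective)
    rintro _ ⟨n, rfl⟩
    show p.eval (n : ℝ) = (Polynomial.X ^ (Fintype.card V)).eval (n : ℝ)
    rw [hp n, Polynomial.eval_pow, Polynomial.eval_X]
    have e : G.Coloring (Fin n) ≃ (V → Fin n) :=
      { toFun := fun c => fun v => c v
        invFun := fun f => SimpleGraph.Coloring.mk f (fun {u v} h => absurd h (h0 u v))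
        left_inv := fun c => by
          ext v
          rfl
        right_inv := fun f => by
          funext v
          rfl }
    rw [Nat.card_congr e]
    simp
  rw [h1, Polynomial.eval_pow, Polynomial.eval_X]
  exact pow_pos hx _

theorem main (hCHP : Stmt_CHP) (hSS : Stmt_SS) (hZD : Stmt_ZD) (hMI : Stmt_MI)
    (hODD : Stmt_ODD) (hNUMB : Stmt_NUMB)
    (V : Type) [Fintype V] (G : SimpleGraph V) [DecidableRel G.Adj]
    (p : Polynomial ℝ)
    (hp : ∀ n : ℕ, p.eval (n : ℝ) = (Nat.card (G.Coloring (Fin n)) : ℝ))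
    (x : ℝ) (hx0 : 0 < x) (hx : (1 + Real.exp 1) * G.maxDegree ≤ x) : 0 < p.eval x := by
  classical
  rcases Nat.eq_zero_or_pos G.maxDegree with h | h
  · apply pos0 V G p hp _ x hx0
    intro u v huv
    have h1 : G.degree u ≤ G.maxDegree := G.degree_le_maxDegree u
    have h2 : 0 < G.degree u := by
      rw [← SimpleGraph.card_neighborFinset_eq_degree, Finset.card_pos]
      exact ⟨v, by simpa using huv⟩
    omega
  · apply posD hCHP hSS hZD hMI hODD hNUMB V G p hp G.maxDegree h _ x hx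
    intro v
    rw [SimpleGraph.card_neighborFinset_eq_degree]
    exact G.degree_le_maxDegree v

end Pool.Agent.RZ.MAIN
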