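import Mathlib
import Pool.Agent.RZ.Stmts

set_option autoImplicit false

namespace Pool.Agent.RZ

open Finset

namespace MI

section Main

variable {V : Type} [Fintype V] [DecidableEq V] (G : SimpleGraph V) [DecidableRel G.Adj]

/-- admissible lists -/
def Adm (m : ℝ) (U : Finset V) (L : V → Finset ℕ) : Prop :=
  ∀ u ∈ U, m + ((G.neighborFinset u ∩ U).card : ℝ) ≤ ((L u).card : ℝ)

/-- the generic part -/
noncomputable def F (s : Finset V → Finset V → ℝ) (t : ℝ) (Z : Finset V → (V → Finset ℕ) → ℝ)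
    (U : Finset V) (L : V → Finset ℕ) (v : V) : ℝ :=
  t * ∑ T ∈ (U.erase v).powerset,
    (-1) ^ T.card * s T (G.neighborFinset v) * Z ((U.erase v) \ T) L

omit [Fintype V] in
lemma rm_rm (L : V → Finset ℕ) (W W' : Finset V) (c : ℕ) :
    rm (rm L W c) W' c = rm L (W ∪ W') c := by
  funext x
  unfold rm
  by_cases h : x ∈ W <;> by_cases h' : x ∈ W' <;> simp [h, h']

omit [Fintype V] in
lemma rm_notMem (L : V → Finset ℕ) (W : Finset V) (c : ℕ) (x : V) (h : x ∉ W) :
    rm L W c x = L x := by
  unfold rm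
  rw [if_neg h]

omit [Fintype V] in
lemma rm_empty (L : V → Finset ℕ) (c : ℕ) : rm L ∅ c = L := by
  funext x
  exact rm_notMem L ∅ c x (notMem_empty x)

lemma adm_mono {m : ℝ} {U U' : Finset V} {L : V → Finset ℕ} (h : Adm G m U L) (hU : U' ⊆ U) :
    Adm G m U' L := by
  intro u hu
  have h1 := h u (hU hu)
  have h2 : (G.neighborFinset u ∩ U').card ≤ (G.neighborFinset u ∩ U).card :=
    card_le_card (inter_subset_inter_left hU)
  have h3 : ((G.neighborFinset u ∩ U').card : ℝ) ≤ ((G.neighborFinset u ∩ U).card : ℝ) := by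
    exact_mod_cast h2
  linarith

lemma adm_rm {m : ℝ} {U U' : Finset V} {L : V → Finset ℕ} (h : Adm G m U L) (hU : U' ⊆ U)
    (W : Finset V) (c : ℕ) (hW : ∀ x ∈ U', x ∈ W → ∃ y ∈ U, y ∉ U' ∧ G.Adj x y) :
    Adm G m U' (rm L W c) := by
  intro x hx
  by_cases hxW : x ∈ W
  · obtain ⟨y, hy, hy', hxy⟩ := hW x hx hxW
    have h1 := h x (hU hx)
    have h2 : (G.neighborFinset x ∩ U').card + 1 ≤ (G.neighborFinset x ∩ U).card := by
      have hny : y ∉ G.neighborFinset x ∩ U' := fun hm => hy' (mem_inter.1 hm).2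
      rw [← card_insert_of_notMem hny]
      apply card_le_card
      intro z hz
      rcases mem_insert.1 hz with rfl | hz
      · exact mem_inter.2 ⟨(G.mem_neighborFinset x z).2 hxy, hy⟩
      · exact mem_inter.2 ⟨(mem_inter.1 hz).1, hU (mem_inter.1 hz).2⟩
    have h3 : (L x).card ≤ (rm L W c x).card + 1 := by
      have h4 : rm L W c x = (L x).erase c := by
        unfold rm
        rw [if_pos hxW]
      rw [h4]
      have := pred_card_le_card_erase (s := L x) (a := c)
      omega
    have h2' : ((G.neighborFinset x ∩ U').card : ℝ) + 1 ≤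
        ((G.neighborFinset x ∩ U).card : ℝ) := by exact_mod_cast h2
    have h3' : ((L x).card : ℝ) ≤ ((rm L W c x).card : ℝ) + 1 := by exact_mod_cast h3
    linarith
  · rw [rm_notMem L W c x hxW]
    exact adm_mono G h hU x hx

variable {G}
variable {s : Finset V → Finset V → ℝ} {t m : ℝ} {Z : Finset V → (V → Finset ℕ) → ℝ}

/-- removing the colour `c` at one more vertex, outside or without effect -/
lemma rm_single_eq (hZ : IsZ G s t Z) (U : Finset V) (L : V → Finset ℕ) (w : V) (c : ℕ)
    (h : ¬ (w ∈ U ∧ c ∈ L w)) : Z U (rm L {w} c) = Z U L := by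
  apply hZ.congr
  intro x hx
  by_cases hxw : x = w
  · subst hxw
    have hc : c ∉ L x := fun hc => h ⟨hx, hc⟩
    unfold rm
    rw [if_pos (mem_singleton_self x), erase_eq_of_notMem hc]
  · exact rm_notMem L {w} c x (fun hm => hxw (mem_singleton.1 hm))

/-- monotonicity -/
lemma mon (hZ : IsZ G s t Z) (U : Finset V) (L : V → Finset ℕ) (c : ℕ) (W : Finset V) :
    (∀ W₁ ⊆ W, ∀ w ∈ U, w ∈ W → 0 ≤ Z (U.erase w) (rm (rm L W₁ c) (G.neighborFinset w) c)) →
    Z U (rm L W c) ≤ Z U L := by
  induction W using Finset.induction_on with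
  | empty => intro _; rw [rm_empty]
  | insert w W hw ih =>
    intro h
    have h1 : Z U (rm L W c) ≤ Z U L :=
      ih (fun W₁ hW₁ w' hw' hm =>
        h W₁ (hW₁.trans (subset_insert w W)) w' hw' (mem_insert_of_mem hm))
    have h2 : rm L (insert w W) c = rm (rm L W c) {w} c := by
      rw [rm_rm, union_comm, ← insert_eq]
    rw [h2]
    by_cases hc : w ∈ U ∧ c ∈ rm L W c w
    · have h3 := hZ.split U (rm L W c) w c hc.1 hc.2
      have h4 := h W (subset_insert w W) w hc.1 (mem_insert_self w W)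
      linarith
    · rw [rm_single_eq hZ U _ w c hc]
      exact h1

/-- telescoping -/
lemma tele (hZ : IsZ G s t Z) (Y : Finset V) (L : V → Finset ℕ) (c : ℕ) (W : Finset V) :
    W ⊆ Y →
    (∀ W₁ ⊆ W, ∀ u ∈ W,
      Z (Y.erase u) (rm (rm L (G.neighborFinset u) c) W₁ c) ≤
        Z (Y.erase u) (rm L (G.neighborFinset u) c)) →
    Z Y L - Z Y (rm L W c) ≤
      ∑ u ∈ W.filter (fun u => c ∈ L u), Z (Y.erase u) (rm L (G.neighborFinset u) c) := by
  induction W using Finset.induction_on with
  | empty => intro _ _; rw [rm_empty]; simp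
  | insert u W hu ih =>
    intro hWY h
    have h1 := ih ((subset_insert u W).trans hWY)
      (fun W₁ hW₁ u' hu' => h W₁ (hW₁.trans (subset_insert u W)) u' (mem_insert_of_mem hu'))
    have h2 : rm L (insert u W) c = rm (rm L W c) {u} c := by
      rw [rm_rm, union_comm, ← insert_eq]
    have hLu : rm L W c u = L u := rm_notMem L W c u hu
    rw [h2]
    by_cases hc : c ∈ L u
    · have h3 := hZ.split Y (rm L W c) u c (hWY (mem_insert_self u W)) (by rw [hLu]; exact hc)
      have h4 : rm (rm L W c) (G.neighborFinset u) c = rm (rm L (G.neighborFinset u) c) W c := by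
        rw [rm_rm, rm_rm, union_comm]
      have h5 := h W (subset_insert u W) u (mem_insert_self u W)
      rw [h4] at h3
      have h6 : (insert u W).filter (fun u => c ∈ L u) =
          insert u (W.filter (fun u => c ∈ L u)) := by
        rw [filter_insert, if_pos hc]
      rw [h6, sum_insert (fun hm => hu (mem_filter.1 hm).1)]
      linarith
    · have h6 : (insert u W).filter (fun u => c ∈ L u) = W.filter (fun u => c ∈ L u) := by
        rw [filter_insert, if_neg hc]
      rw [h6, rm_single_eq hZ Y _ u c (fun hm => hc (by rw [← hLu]; exact hm.2))]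
      exact h1

/-- the claim of the induction -/
def Q (G : SimpleGraph V) [DecidableRel G.Adj] (s : Finset V → Finset V → ℝ) (t m : ℝ)
    (Z : Finset V → (V → Finset ℕ) → ℝ) (U : Finset V) : Prop :=
  ∀ L : V → Finset ℕ, Adm G m U L →
    0 < Z U L ∧ (∀ v ∈ U, m * Z (U.erase v) L ≤ Z U L) ∧ ∀ v ∈ U, 0 ≤ F G s t Z U L v

/-- iterated form of (ii) -/
lemma iter (hm : 0 < m) (Y : Finset V) (L : V → Finset ℕ) (hL : Adm G m Y L)
    (hQ : ∀ Y' ⊆ Y, Q G s t m Z Y') (T : Finset V) :
    T ⊆ Y → Z (Y \ T) L ≤ (1 / m) ^ T.card * Z Y L := by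
  induction T using Finset.induction_on with
  | empty => intro _; simp
  | insert u T hu ih =>
    intro hT
    have h1 := ih ((subset_insert u T).trans hT)
    have h2 : Y \ insert u T = (Y \ T).erase u := by
      rw [sdiff_insert]
    have h3 := (hQ (Y \ T) sdiff_subset L (adm_mono G hL sdiff_subset)).2.1 u
      (mem_sdiff.2 ⟨hT (mem_insert_self u T), hu⟩)
    rw [h2, card_insert_of_notMem hu, pow_succ]
    have h4 : Z ((Y \ T).erase u) L ≤ 1 / m * Z (Y \ T) L := by
      rw [one_div, ← div_eq_inv_mul, le_div_iff₀ hm, mul_comm]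
      exact h3
    calc Z ((Y \ T).erase u) L ≤ 1 / m * Z (Y \ T) L := h4
      _ ≤ 1 / m * ((1 / m) ^ T.card * Z Y L) :=
          mul_le_mul_of_nonneg_left h1 (by positivity)
      _ = (1 / m) ^ T.card * (1 / m) * Z Y L := by ring

/-- part (iii) -/
lemma part3 (ht : 0 ≤ t) (hm : 0 < m) (hs : IsS G s) (U : Finset V) (v : V) (hv : v ∈ U)
    (L : V → Finset ℕ) (hL : Adm G m U L) (hQ : ∀ Y' ⊂ U, Q G s t m Z Y')
    (hodd : ∑ T ∈ (U.erase v).powerset.filter (fun T => Odd T.card),
      s T (G.neighborFinset v) * (1 / m) ^ T.card ≤ 1) :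
    0 ≤ F G s t Z U L v := by
  have hss : U.erase v ⊂ U := erase_ssubset hv
  have hsub : ∀ Y' ⊆ U.erase v, Q G s t m Z Y' := fun Y' hY' => hQ Y' (lt_of_le_of_lt hY' hss)
  have hLY : Adm G m (U.erase v) L := adm_mono G hL (erase_subset v U)
  have hY : 0 < Z (U.erase v) L := (hQ _ hss L hLY).1
  unfold F
  refine mul_nonneg ht ?_
  rw [← sum_filter_add_sum_filter_not (U.erase v).powerset (fun T => Odd T.card)]
  have h1 : -(Z (U.erase v) L) ≤ ∑ T ∈ (U.erase v).powerset.filter (fun T => Odd T.card),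
      (-1) ^ T.card * s T (G.neighborFinset v) * Z ((U.erase v) \ T) L := by
    have h2 : ∀ T ∈ (U.erase v).powerset.filter (fun T => Odd T.card),
        -(s T (G.neighborFinset v) * (1 / m) ^ T.card * Z (U.erase v) L) ≤
          (-1) ^ T.card * s T (G.neighborFinset v) * Z ((U.erase v) \ T) L := by
      intro T hT
      obtain ⟨hT1, hT2⟩ := mem_filter.1 hT
      rw [hT2.neg_one_pow]
      have h3 := iter hm (U.erase v) L hLY hsub T (mem_powerset.1 hT1)
      have h4 := mul_le_mul_of_nonneg_left h3 (hs.nonneg T (G.neighborFinset v))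
      nlinarith
    refine le_trans ?_ (sum_le_sum h2)
    rw [sum_neg_distrib, ← sum_mul]
    have h5 := mul_le_mul_of_nonneg_right hodd hY.le
    linarith
  have h6 : Z (U.erase v) L ≤ ∑ T ∈ (U.erase v).powerset.filter (fun T => ¬ Odd T.card),
      (-1) ^ T.card * s T (G.neighborFinset v) * Z ((U.erase v) \ T) L := by
    have h7 : ∀ T ∈ (U.erase v).powerset.filter (fun T => ¬ Odd T.card),
        0 ≤ (-1) ^ T.card * s T (G.neighborFinset v) * Z ((U.erase v) \ T) L := by
      intro T hT
      obtain ⟨hT1, hT2⟩ := mem_filter.1 hT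
      rw [(Nat.not_odd_iff_even.1 hT2).neg_one_pow, one_mul]
      exact mul_nonneg (hs.nonneg _ _)
        (hsub _ sdiff_subset L (adm_mono G hLY sdiff_subset)).1.le
    have h8 := single_le_sum h7 (a := ∅) (mem_filter.2 ⟨empty_mem_powerset _, by simp⟩)
    rw [hs.empty] at h8
    simpa using h8
  linarith

/-- part (ii), the sum over the colours -/
lemma part2 (hZ : IsZ G s t Z) (U : Finset V) (v : V) (hv : v ∈ U)
    (L : V → Finset ℕ) (hL : Adm G m U L) (hQ : ∀ Y' ⊂ U, Q G s t m Z Y') :
    m * Z (U.erase v) L ≤ ∑ c ∈ L v, Z (U.erase v) (rm L (G.neighborFinset v) c) := by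
  have hss : U.erase v ⊂ U := erase_ssubset hv
  have hLY : Adm G m (U.erase v) L := adm_mono G hL (erase_subset v U)
  have hY : 0 < Z (U.erase v) L := (hQ _ hss L hLY).1
  set Y := U.erase v with hYdef
  have hvY : v ∉ Y := notMem_erase v U
  have hYU : Y ⊆ U := erase_subset v U
  -- positivity of the terms
  have hpos : ∀ u ∈ Y, ∀ c, 0 < Z (Y.erase u) (rm L (G.neighborFinset u) c) := by
    intro u hu c
    refine (hQ (Y.erase u) (lt_of_le_of_lt (erase_subset u Y) hss) _ ?_).1
    apply adm_rm G hLY (erase_subset u Y)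
    intro x hx hxu
    exact ⟨u, hu, notMem_erase u Y, ((G.mem_neighborFinset u x).1 hxu).symm⟩
  -- for one colour
  have hc : ∀ c ∈ L v, Z Y L - ∑ u ∈ (G.neighborFinset v ∩ Y).filter (fun u => c ∈ L u),
      Z (Y.erase u) (rm L (G.neighborFinset u) c) ≤ Z Y (rm L (G.neighborFinset v) c) := by
    intro c _
    have h1 : Z Y (rm L (G.neighborFinset v) c) = Z Y (rm L (G.neighborFinset v ∩ Y) c) := by
      apply hZ.congr
      intro x hx
      unfold rm
      by_cases hxv : x ∈ G.neighborFinset v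
      · rw [if_pos hxv, if_pos (mem_inter.2 ⟨hxv, hx⟩)]
      · rw [if_neg hxv, if_neg (fun hm => hxv (mem_inter.1 hm).1)]
    rw [h1]
    have h2 := tele hZ Y L c (G.neighborFinset v ∩ Y) inter_subset_right ?_
    · linarith
    intro W₁ hW₁ u hu
    have huY : u ∈ Y := (mem_inter.1 hu).2
    apply mon hZ
    intro W₂ hW₂ w hw _
    rw [rm_rm, rm_rm]
    refine (hQ ((Y.erase u).erase w) (lt_of_le_of_lt ((erase_subset w _).trans
      (erase_subset u Y)) hss) _ ?_).1.le
    apply adm_rm G hL (((erase_subset w _).trans (erase_subset u Y)).trans hYU)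
    intro x hx hxW
    rcases mem_union.1 hxW with h | h
    · exact ⟨u, hYU huY, fun hm => notMem_erase u Y (mem_of_mem_erase hm),
        ((G.mem_neighborFinset u x).1 h).symm⟩
    rcases mem_union.1 h with h | h
    · have hxv : x ∈ G.neighborFinset v := (mem_inter.1 (hW₁ (hW₂ h))).1
      exact ⟨v, hv, fun hm => hvY (mem_of_mem_erase (mem_of_mem_erase hm)),
        ((G.mem_neighborFinset v x).1 hxv).symm⟩
    · exact ⟨w, hYU (mem_of_mem_erase hw), notMem_erase w _,
        ((G.mem_neighborFinset w x).1 h).symm⟩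
  -- the inner sums
  have hin : ∀ u ∈ G.neighborFinset v ∩ Y,
      ∑ c ∈ (L v).filter (fun c => c ∈ L u), Z (Y.erase u) (rm L (G.neighborFinset u) c) ≤
        Z Y L := by
    intro u hu
    have huY : u ∈ Y := (mem_inter.1 hu).2
    have h1 := hZ.step Y L u huY
    have h2 : 0 ≤ F G s t Z Y L u := (hQ Y hss L hLY).2.2 u huY
    unfold F at h2
    have h3 : ∑ c ∈ (L v).filter (fun c => c ∈ L u),
        Z (Y.erase u) (rm L (G.neighborFinset u) c) ≤
        ∑ c ∈ L u, Z (Y.erase u) (rm L (G.neighborFinset u) c) := by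
      apply sum_le_sum_of_subset_of_nonneg
      · intro c hc'
        exact (mem_filter.1 hc').2
      · intro c _ _
        exact (hpos u huY c).le
    linarith
  have hsum := sum_le_sum hc
  rw [sum_sub_distrib, sum_const, nsmul_eq_mul] at hsum
  have hswap : ∑ c ∈ L v, ∑ u ∈ (G.neighborFinset v ∩ Y).filter (fun u => c ∈ L u),
      Z (Y.erase u) (rm L (G.neighborFinset u) c) =
      ∑ u ∈ G.neighborFinset v ∩ Y, ∑ c ∈ (L v).filter (fun c => c ∈ L u),
        Z (Y.erase u) (rm L (G.neighborFinset u) c) := by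
    simp_rw [sum_filter]
    rw [sum_comm]
  rw [hswap] at hsum
  have hin' := sum_le_sum hin
  rw [sum_const, nsmul_eq_mul] at hin'
  have hcard : ((G.neighborFinset v ∩ Y).card : ℝ) ≤ ((G.neighborFinset v ∩ U).card : ℝ) := by
    exact_mod_cast card_le_card (inter_subset_inter_left hYU)
  have hLv := hL v hv
  have h9 : m ≤ ((L v).card : ℝ) - ((G.neighborFinset v ∩ Y).card : ℝ) := by linarith
  have h10 := mul_le_mul_of_nonneg_right h9 hY.le
  nlinarith

end Main

end MI

theorem t_MI : Stmt_MI := by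
  intro V _ _ G _ s t m Z ht hm hs hZ hodd U
  have key : ∀ U : Finset V, MI.Q G s t m Z U := by
    intro U
    induction U using Finset.strongInduction with
    | H U ih =>
      intro L hL
      have h3 : ∀ v ∈ U, 0 ≤ MI.F G s t Z U L v := fun v hv =>
        MI.part3 ht hm hs U v hv L hL ih (hodd (U.erase v) v (notMem_erase v U))
      have h2 : ∀ v ∈ U, m * Z (U.erase v) L ≤ Z U L := by
        intro v hv
        have h4 := MI.part2 hZ U v hv L hL ih
        have h5 := hZ.step U L v hv
        have h6 := h3 v hv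
        unfold MI.F at h6
        linarith
      refine ⟨?_, h2, h3⟩
      rcases U.eq_empty_or_nonempty with hU | ⟨v, hv⟩
      · subst hU
        rw [hZ.empty]
        exact one_pos
      · have h7 := (ih (U.erase v) (erase_ssubset hv) L
          (MI.adm_mono G hL (erase_subset v U))).1
        have h8 := h2 v hv
        have h9 := mul_pos hm h7
        linarith
  intro L hL
  exact (key U L hL).1

end Pool.Agent.RZ
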