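import Mathlib
import Pool.Agent.RZ.Stmts

/-!
# Module NUMB: the numerical constants
-/

set_option autoImplicit false

namespace Pool.Agent.RZ

namespace NUMB

lemma pow_le_exp (D : ℕ) (hD : 1 ≤ D) : (1 + 1 / (D : ℝ)) ^ D ≤ Real.exp 1 := by
  have h0 : (0 : ℝ) < D := by exact_mod_cast (by omega : 0 < D)
  have h1 : 1 + 1 / (D : ℝ) ≤ Real.exp (1 / D) := by
    have := Real.add_one_le_exp (1 / (D : ℝ))
    linarith
  calc (1 + 1 / (D : ℝ)) ^ D ≤ (Real.exp (1 / D)) ^ D :=
        pow_le_pow_left₀ (by positivity) h1 D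
    _ = Real.exp 1 := by
        rw [← Real.exp_nat_mul]
        congr 1
        field_simp

/-- the last inequality from a lower bound of `c` -/
lemma low {q c c₁ : ℝ} (h : c * (1 - q) ≤ q) (hq : q ≤ 1) (hc : c₁ ≤ c) : c₁ * (1 - q) ≤ q :=
  (mul_le_mul_of_nonneg_right hc (by linarith)).trans h

end NUMB

theorem t_NUMB : Stmt_NUMB := by
  intro D m hD hm
  have e1 := Real.exp_one_gt_d9
  have e2 := Real.exp_one_lt_d9
  set e := Real.exp 1 with he
  have hDr : (1 : ℝ) ≤ D := by exact_mod_cast hD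
  have hD0 : (0 : ℝ) < D := by linarith
  have hm1 : 1 < m := by nlinarith
  have hm0 : 0 < m := by linarith
  refine ⟨hm0, ?_⟩
  -- the number `B`
  obtain ⟨B, hB, hBe⟩ : ∃ B ∈ Set.Icc (0 : ℝ) 1, m * B - (1 - B) ^ (D - 1) = 0 := by
    have hc : ContinuousOn (fun B : ℝ => m * B - (1 - B) ^ (D - 1)) (Set.Icc 0 1) := by
      fun_prop
    have := intermediate_value_Icc (zero_le_one' ℝ) hc
    apply this
    constructor
    · simp
    · have : ((1 : ℝ) - 1) ^ (D - 1) ≤ 1 := by
        rw [sub_self]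
        exact pow_le_one₀ le_rfl zero_le_one
      simp only [mul_one]
      linarith
  obtain ⟨hB0, hB1⟩ := hB
  have hBm : m * B = (1 - B) ^ (D - 1) := by linarith
  have hmB1 : m * B ≤ 1 := by
    rw [hBm]
    exact pow_le_one₀ (by linarith) (by linarith)
  -- the number `A`
  have hA : 1 / m * (1 + 1 / (D : ℝ)) ^ (D - 1) ≤ 1 / D := by
    have h1 := NUMB.pow_le_exp D hD
    have h2 : (1 + 1 / (D : ℝ)) ^ D = (1 + 1 / (D : ℝ)) ^ (D - 1) * (1 + 1 / (D : ℝ)) := by
      rw [← pow_succ]
      congr 1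
      omega
    set w := (1 + 1 / (D : ℝ)) ^ (D - 1) with hw
    rw [h2] at h1
    have h3 : w * (D + 1) ≤ e * D := by
      have : w * (D + 1) = w * (1 + 1 / (D : ℝ)) * D := by
        field_simp
      rw [this]
      exact mul_le_mul_of_nonneg_right h1 hD0.le
    have h4 : w * D ≤ m := by
      have h5 : w * D * (D + 1) ≤ m * (D + 1) := by
        have h6 : w * D * (D + 1) ≤ e * D * D := by
          have := mul_le_mul_of_nonneg_right h3 hD0.le
          nlinarith
        have h7 : e * D * D ≤ (e * D - 1) * (D + 1) := by nlinarith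
        have h8 : (e * D - 1) * ((D : ℝ) + 1) ≤ m * (D + 1) :=
          mul_le_mul_of_nonneg_right hm (by linarith)
        linarith
      exact le_of_mul_le_mul_right h5 (by linarith)
    rw [one_div_mul_eq_div, div_le_div_iff₀ hm0 hD0]
    linarith
  have hBA : B ≤ 1 / (D : ℝ) := by
    have h1 : (1 : ℝ) ≤ (1 + 1 / (D : ℝ)) ^ (D - 1) :=
      one_le_pow₀ (by have : 0 ≤ 1 / (D : ℝ) := by positivity
                      linarith)
    have h2 : 1 / m ≤ 1 / m * (1 + 1 / (D : ℝ)) ^ (D - 1) := by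
      have : 0 ≤ 1 / m := by positivity
      nlinarith
    have h3 : B ≤ 1 / m := by
      rw [le_div_iff₀ hm0]
      linarith
    linarith
  refine ⟨1 / D, B, hB0, hB1, hBA, hA, ?_, ?_⟩
  · rw [← hBm]
    field_simp
  -- the last inequality
  rcases Nat.lt_or_ge D 2 with h2 | h2
  · have hD1 : D = 1 := by omega
    subst hD1
    norm_num
    linarith
  have hD2 : (2 : ℝ) ≤ D := by exact_mod_cast h2
  set q := (1 - B) ^ D with hq
  have hq1 : q ≤ 1 := pow_le_one₀ (by linarith) (by linarith)
  have F1 : 1 - D * B ≤ q := by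
    have := one_add_mul_le_pow (a := -B) (by linarith) D
    have h3 : (1 + -B) = 1 - B := by ring
    rw [h3] at this
    linarith
  have F2 : B * (e * D - 2) ≤ q := by
    have h3 : q = (1 - B) * (m * B) := by
      rw [hBm, hq, mul_comm, ← pow_succ]
      congr 1
      omega
    rw [h3]
    nlinarith
  have F3 : (e - 2 / D) * (1 - q) ≤ q := by
    have h3 : 0 ≤ e - 2 / D := by
      have : 2 / (D : ℝ) ≤ 1 := by
        rw [div_le_one hD0]
        exact hD2
      linarith
    have h4 : (e - 2 / D) * (1 - q) ≤ (e - 2 / D) * (D * B) :=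
      mul_le_mul_of_nonneg_left (by linarith) h3
    have h5 : (e - 2 / D) * (D * B) = B * (e * D - 2) := by
      field_simp
    linarith
  rcases Nat.lt_or_ge D 12 with h12 | h12
  · interval_cases D
    all_goals
      norm_num at F3 ⊢
    · have := NUMB.low F3 hq1 (c₁ := 1.7) (by linarith); linarith
    · have := NUMB.low F3 hq1 (c₁ := 2) (by linarith); linarith
    · have := NUMB.low F3 hq1 (c₁ := 2.2) (by linarith); linarith
    · have := NUMB.low F3 hq1 (c₁ := 2.3) (by linarith); linarith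
    · have := NUMB.low F3 hq1 (c₁ := 2.3) (by linarith); linarith
    · have := NUMB.low F3 hq1 (c₁ := 2.4) (by linarith); linarith
    · have := NUMB.low F3 hq1 (c₁ := 2.4) (by linarith); linarith
    · have := NUMB.low F3 hq1 (c₁ := 2.4) (by linarith); linarith
    · have := NUMB.low F3 hq1 (c₁ := 2.5) (by linarith); linarith
    · have := NUMB.low F3 hq1 (c₁ := 2.5) (by linarith); linarith
  · have hD12 : (12 : ℝ) ≤ D := by exact_mod_cast h12
    have h3 : 2 / (D : ℝ) ≤ 1 / 6 := by
      rw [div_le_div_iff₀ hD0 (by norm_num)]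
      linarith
    have h4 := NUMB.low F3 hq1 (c₁ := e - 1 / 6) (by linarith)
    have h5 := NUMB.pow_le_exp D hD
    have h6 : (1 + 1 / (D : ℝ)) ^ D ≤ e := h5
    have h7 : e - 2 ≤ q := by
      by_contra hcon
      push Not at hcon
      nlinarith
    linarith

end Pool.Agent.RZ
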