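import Mathlib
import Pool.Agent.RZ.Stmts

/-!
# The odd sum
-/

set_option autoImplicit false

namespace Pool.Agent.RZ

open Finset

namespace ODD

section

variable {V : Type} [Fintype V] [DecidableEq V] {G : SimpleGraph V} [DecidableRel G.Adj]

/-- weighted sum -/
noncomputable def F (s : Finset V → Finset V → ℝ) (z : ℝ) (f : ℕ → ℝ) (U X : Finset V) : ℝ :=
  ∑ T ∈ U.powerset, f T.card * (s T X * z ^ T.card)

/-- indicator of the even numbers -/
noncomputable def ev (n : ℕ) : ℝ := if Even n then 1 else 0

/-- indicator of the odd numbers -/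
noncomputable def od (n : ℕ) : ℝ := if Odd n then 1 else 0

theorem ev_succ (n : ℕ) : ev (n + 1) = od n := by
  unfold ev od
  simp only [Nat.even_add_one, Nat.not_even_iff_odd]

theorem od_succ (n : ℕ) : od (n + 1) = ev n := by
  unfold ev od
  simp only [Nat.odd_add_one, Nat.not_odd_iff_even]

theorem off_union {s : Finset V → Finset V → ℝ} (hs : IsS G s) (T X Y : Finset V)
    (h : Disjoint T Y) : s T (Y ∪ X) = s T X := by
  induction Y using Finset.induction_on with
  | empty => rw [Finset.empty_union]
  | insert a Y ha ih =>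
    rw [Finset.disjoint_insert_right] at h
    rw [Finset.insert_union, hs.off T _ a h.1, ih h.2]

/-- recursion for the weighted sum -/
theorem F_step {s : Finset V → Finset V → ℝ} (hs : IsS G s) (z : ℝ) (f : ℕ → ℝ)
    (U X : Finset V) (u : V) (hu : u ∈ U) (hX : u ∉ X) :
    F s z f U (insert u X) = F s z f U X +
      z * F s z (fun n => f (n + 1)) (U.erase u) (X ∪ G.neighborFinset u) := by
  unfold F
  have hU : insert u (U.erase u) = U := Finset.insert_erase hu
  have hnot : u ∉ U.erase u := Finset.notMem_erase u U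
  have h1 : ∀ T ∈ (U.erase u).powerset, u ∉ T := by
    intro T hT h
    exact hnot (Finset.mem_powerset.mp hT h)
  have key : ∀ g : Finset V → ℝ, ∑ T ∈ U.powerset, g T =
      ∑ T ∈ (U.erase u).powerset, g T + ∑ T ∈ (U.erase u).powerset, g (insert u T) := by
    intro g
    rw [← Finset.sum_powerset_insert hnot, hU]
  have e1 : ∑ T ∈ (U.erase u).powerset, f T.card * (s T (insert u X) * z ^ T.card) =
      ∑ T ∈ (U.erase u).powerset, f T.card * (s T X * z ^ T.card) := by
    refine Finset.sum_congr rfl fun T hT => ?_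
    rw [hs.off T X u (h1 T hT)]
  have e2 : ∑ T ∈ (U.erase u).powerset,
        f (insert u T).card * (s (insert u T) (insert u X) * z ^ (insert u T).card) =
      ∑ T ∈ (U.erase u).powerset, f (insert u T).card * (s (insert u T) X * z ^ (insert u T).card) +
      z * ∑ T ∈ (U.erase u).powerset,
        f (T.card + 1) * (s T (X ∪ G.neighborFinset u) * z ^ T.card) := by
    rw [Finset.mul_sum, ← Finset.sum_add_distrib]
    refine Finset.sum_congr rfl fun T hT => ?_
    rw [hs.step (insert u T) X u (Finset.mem_insert_self u T) hX,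
      Finset.erase_insert (h1 T hT), Finset.card_insert_of_notMem (h1 T hT)]
    ring
  rw [key, key, e1, e2, add_assoc]

/-- the weighted sum when `X` does not meet `U` -/
theorem F_disj {s : Finset V → Finset V → ℝ} (hs : IsS G s) (z : ℝ) (f : ℕ → ℝ)
    (U X : Finset V) (h : Disjoint U X) : F s z f U X = f 0 := by
  unfold F
  rw [Finset.sum_eq_single (∅ : Finset V)]
  · rw [hs.empty, Finset.card_empty, pow_zero, mul_one, mul_one]
  · intro T hT hne
    have hd : Disjoint T X := Finset.disjoint_of_subset_left (Finset.mem_powerset.mp hT) h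
    have h2 := off_union hs T ∅ X hd
    rw [Finset.union_empty] at h2
    rw [h2, hs.nonempty T (Finset.nonempty_iff_ne_empty.mpr hne), zero_mul, mul_zero]
  · intro h0
    exact absurd (Finset.empty_mem_powerset U) h0

/-- upper bound for the even sums -/
noncomputable def E (A B : ℝ) (k : ℕ) : ℝ := ((1 + A) ^ k + (1 - B) ^ k) / 2

/-- upper bound for the odd sums -/
noncomputable def O (A B : ℝ) (k : ℕ) : ℝ := ((1 + A) ^ k - (1 - B) ^ k) / 2

theorem E_mono {A B : ℝ} (hB : 0 ≤ B) (hB1 : B ≤ 1) (hAB : B ≤ A) : Monotone (E A B) := by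
  refine monotone_nat_of_le_succ fun k => ?_
  unfold E
  have h1 : 1 ≤ (1 + A) ^ k := one_le_pow₀ (by linarith)
  have h2 : (1 - B) ^ k ≤ 1 := pow_le_one₀ (by linarith) (by linarith)
  have h3 : 0 ≤ (1 - B) ^ k := pow_nonneg (by linarith) k
  have h4 : B * (1 - B) ^ k ≤ A * (1 + A) ^ k := by
    calc B * (1 - B) ^ k ≤ B * 1 := mul_le_mul_of_nonneg_left h2 hB
      _ ≤ A * 1 := by linarith
      _ ≤ A * (1 + A) ^ k := mul_le_mul_of_nonneg_left h1 (by linarith)
  rw [pow_succ, pow_succ]
  linarith

theorem O_mono {A B : ℝ} (hB : 0 ≤ B) (hB1 : B ≤ 1) (hAB : B ≤ A) : Monotone (O A B) := by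
  refine monotone_nat_of_le_succ fun k => ?_
  unfold O
  have h1 : 0 ≤ A * (1 + A) ^ k := mul_nonneg (by linarith) (pow_nonneg (by linarith) k)
  have h3 : 0 ≤ B * (1 - B) ^ k := mul_nonneg hB (pow_nonneg (by linarith) k)
  rw [pow_succ, pow_succ]
  linarith

theorem E_rec {z A B : ℝ} {D : ℕ} (hB : 0 ≤ B) (hAB : B ≤ A)
    (hA : z * (1 + A) ^ (D - 1) ≤ A) (hBz : z * (1 - B) ^ (D - 1) = B) (k : ℕ) :
    E A B k + z * O A B (k + (D - 1)) ≤ E A B (k + 1) := by
  unfold E O
  have h1 : z * (1 + A) ^ (D - 1) * (1 + A) ^ k ≤ A * (1 + A) ^ k :=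
    mul_le_mul_of_nonneg_right hA (pow_nonneg (by linarith) k)
  have h2 : z * (1 - B) ^ (D - 1) * (1 - B) ^ k = B * (1 - B) ^ k := by rw [hBz]
  rw [pow_succ, pow_succ, pow_add, pow_add]
  linarith

theorem O_rec {z A B : ℝ} {D : ℕ} (hB : 0 ≤ B) (hAB : B ≤ A)
    (hA : z * (1 + A) ^ (D - 1) ≤ A) (hBz : z * (1 - B) ^ (D - 1) = B) (k : ℕ) :
    O A B k + z * E A B (k + (D - 1)) ≤ O A B (k + 1) := by
  unfold E O
  have h1 : z * (1 + A) ^ (D - 1) * (1 + A) ^ k ≤ A * (1 + A) ^ k :=
    mul_le_mul_of_nonneg_right hA (pow_nonneg (by linarith) k)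
  have h2 : z * (1 - B) ^ (D - 1) * (1 - B) ^ k = B * (1 - B) ^ k := by rw [hBz]
  rw [pow_succ, pow_succ, pow_add, pow_add]
  linarith

/-- the two bounds -/
theorem claim {s : Finset V → Finset V → ℝ} {z A B : ℝ} {D : ℕ} (hD : 1 ≤ D)
    (hdeg : ∀ v : V, (G.neighborFinset v).card ≤ D) (hz : 0 ≤ z) (hB : 0 ≤ B) (hB1 : B ≤ 1)
    (hAB : B ≤ A) (hA : z * (1 + A) ^ (D - 1) ≤ A) (hBz : z * (1 - B) ^ (D - 1) = B)
    (hs : IsS G s) :
    ∀ (n k : ℕ) (U X : Finset V), U.card ≤ n → (X ∩ U).card = k →
      (∀ x ∈ X ∩ U, ∃ w, w ∉ U ∧ G.Adj x w) →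
      F s z ev U X ≤ E A B k ∧ F s z od U X ≤ O A B k := by
  intro n
  induction n with
  | zero =>
    intro k U X hU hk _
    have hU0 : U = ∅ := Finset.card_eq_zero.mp (Nat.le_zero.mp hU)
    subst hU0
    rw [Finset.inter_empty, Finset.card_empty] at hk
    subst hk
    rw [F_disj hs z ev ∅ X (Finset.disjoint_empty_left X),
      F_disj hs z od ∅ X (Finset.disjoint_empty_left X)]
    unfold ev od E O
    norm_num
  | succ n ihn =>
    intro k
    induction k with
    | zero =>
      intro U X _ hk _
      have hd : Disjoint U X := by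
        rw [Finset.disjoint_iff_inter_eq_empty, Finset.inter_comm]
        exact Finset.card_eq_zero.mp hk
      rw [F_disj hs z ev U X hd, F_disj hs z od U X hd]
      unfold ev od E O
      norm_num
    | succ k ihk =>
      intro U X hU hk hout
      have hne : (X ∩ U).Nonempty := by
        rw [← Finset.card_pos, hk]
        exact Nat.succ_pos k
      obtain ⟨u, hu⟩ := hne
      have huX : u ∈ X := (Finset.mem_inter.mp hu).1
      have huU : u ∈ U := (Finset.mem_inter.mp hu).2
      obtain ⟨w, hwU, huw⟩ := hout u hu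
      have hXe : insert u (X.erase u) = X := Finset.insert_erase huX
      have hnot : u ∉ X.erase u := Finset.notMem_erase u X
      -- the set X without u
      have hk1 : (X.erase u ∩ U).card = k := by
        rw [Finset.erase_inter, Finset.card_erase_of_mem hu, hk]
        rfl
      have ih1 := ihk U (X.erase u) hU hk1 (by
        intro x hx
        refine hout x ?_
        rw [Finset.mem_inter] at hx ⊢
        exact ⟨Finset.mem_of_mem_erase hx.1, hx.2⟩)
      -- the set U without u
      have hUc : (U.erase u).card ≤ n := by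
        rw [Finset.card_erase_of_mem huU]
        omega
      have hcard : ((X.erase u ∪ G.neighborFinset u) ∩ U.erase u).card ≤ k + (D - 1) := by
        have hsub : (X.erase u ∪ G.neighborFinset u) ∩ U.erase u ⊆
            (X.erase u ∩ U) ∪ (G.neighborFinset u).erase w := by
          intro x hx
          rw [Finset.mem_inter, Finset.mem_union] at hx
          have hxU : x ∈ U := Finset.mem_of_mem_erase hx.2
          rcases hx.1 with h1 | h1
          · exact Finset.mem_union_left _ (Finset.mem_inter.mpr ⟨h1, hxU⟩)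
          · refine Finset.mem_union_right _ (Finset.mem_erase.mpr ⟨?_, h1⟩)
            intro hxw
            exact hwU (hxw ▸ hxU)
        refine (Finset.card_le_card hsub).trans ((Finset.card_union_le _ _).trans ?_)
        rw [hk1, Finset.card_erase_of_mem ((SimpleGraph.mem_neighborFinset G u w).mpr huw)]
        have := hdeg u
        omega
      have ih2 := ihn _ (U.erase u) (X.erase u ∪ G.neighborFinset u) hUc rfl (by
        intro x hx
        rw [Finset.mem_inter, Finset.mem_union] at hx
        have hxU : x ∈ U := Finset.mem_of_mem_erase hx.2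
        rcases hx.1 with h1 | h1
        · obtain ⟨w', hw', hxw'⟩ := hout x
            (Finset.mem_inter.mpr ⟨Finset.mem_of_mem_erase h1, hxU⟩)
          exact ⟨w', fun h => hw' (Finset.mem_of_mem_erase h), hxw'⟩
        · exact ⟨u, Finset.notMem_erase u U,
            ((SimpleGraph.mem_neighborFinset G u x).mp h1).symm⟩)
      have hE := E_mono hB hB1 hAB hcard
      have hO := O_mono hB hB1 hAB hcard
      have r1 := F_step hs z ev U (X.erase u) u huU hnot
      have r2 := F_step hs z od U (X.erase u) u huU hnot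
      rw [hXe] at r1 r2
      simp only [ev_succ] at r1
      simp only [od_succ] at r2
      have m1 : z * F s z od (U.erase u) (X.erase u ∪ G.neighborFinset u) ≤
          z * O A B (k + (D - 1)) := mul_le_mul_of_nonneg_left (ih2.2.trans hO) hz
      have m2 : z * F s z ev (U.erase u) (X.erase u ∪ G.neighborFinset u) ≤
          z * E A B (k + (D - 1)) := mul_le_mul_of_nonneg_left (ih2.1.trans hE) hz
      refine ⟨?_, ?_⟩
      · rw [r1]
        exact (add_le_add ih1.1 m1).trans (E_rec hB hAB hA hBz k)
      · rw [r2]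
        exact (add_le_add ih1.2 m2).trans (O_rec hB hAB hA hBz k)

end

end ODD

open ODD in
theorem t_ODD : Stmt_ODD := by
  intro V _ _ G _ s z A B D hD hdeg hz hB hB1 hAB hA hBz hs U v hv
  have h := (claim hD hdeg hz hB hB1 hAB hA hBz hs U.card
    (G.neighborFinset v ∩ U).card U (G.neighborFinset v) le_rfl rfl (by
      intro x hx
      exact ⟨v, hv, ((SimpleGraph.mem_neighborFinset G v x).mp
        (Finset.mem_inter.mp hx).1).symm⟩)).2
  have hc : (G.neighborFinset v ∩ U).card ≤ D :=
    (Finset.card_le_card Finset.inter_subset_left).trans (hdeg v)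
  have h2 := h.trans (O_mono hB hB1 hAB hc)
  unfold F od O at h2
  rw [Finset.sum_filter]
  refine le_trans (le_of_eq (Finset.sum_congr rfl fun T _ => ?_)) h2
  by_cases hT : Odd T.card
  · rw [if_pos hT, if_pos hT, one_mul]
  · rw [if_neg hT, if_neg hT, zero_mul]

end Pool.Agent.RZ
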