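import Pool.Agent.RZ.Stmts

set_option autoImplicit false

namespace Pool.Agent.RZ

open Finset

open Pool.Agent.ChromA2 (Indep N)

namespace RR

section

variable {V : Type} [Fintype V] [DecidableEq V] {G : SimpleGraph V} [DecidableRel G.Adj]
  {ch : Finset V → ℝ → ℝ}

theorem r2 (h : IsCh G ch) (S : Finset V) (v : V) (hv : v ∈ S) (t : ℝ) :
    ch S t = t * R G ch (S.erase v) (G.neighborFinset v) t := by
  rw [h.rec2 S v hv t]
  congr 1
  unfold R
  refine Finset.sum_nbij' (fun I => I.erase v) (fun J => insert v J) ?_ ?_ ?_ ?_ ?_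
  · intro I hI
    rw [mem_filter, mem_powerset] at hI
    obtain ⟨hIS, hind, hvI⟩ := hI
    rw [mem_filter, mem_powerset]
    refine ⟨?_, ?_⟩
    · intro u hu
      rw [mem_erase] at hu
      rw [mem_sdiff, mem_erase, SimpleGraph.mem_neighborFinset]
      exact ⟨⟨hu.1, hIS hu.2⟩, hind v hvI u hu.2⟩
    · intro a ha b hb
      exact hind a (mem_of_mem_erase ha) b (mem_of_mem_erase hb)
  · intro J hJ
    rw [mem_filter, mem_powerset] at hJ
    obtain ⟨hJS, hind⟩ := hJ
    have hnv : ∀ u ∈ J, ¬ G.Adj v u := by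
      intro u hu
      have := hJS hu
      rw [mem_sdiff, mem_erase, SimpleGraph.mem_neighborFinset] at this
      exact this.2
    rw [mem_filter, mem_powerset]
    refine ⟨?_, ?_, mem_insert_self _ _⟩
    · intro u hu
      rw [mem_insert] at hu
      rcases hu with rfl | hu
      · exact hv
      · have := hJS hu
        rw [mem_sdiff, mem_erase] at this
        exact this.1.2
    · intro a ha b hb
      rw [mem_insert] at ha hb
      rcases ha with rfl | ha <;> rcases hb with rfl | hb
      · exact G.irrefl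
      · exact hnv b hb
      · exact fun hh => hnv a ha hh.symm
      · exact hind a ha b hb
  · intro I hI
    rw [mem_filter] at hI
    exact insert_erase hI.2.2
  · intro J hJ
    rw [mem_filter, mem_powerset] at hJ
    apply erase_insert
    intro hvJ
    have := hJ.1 hvJ
    rw [mem_sdiff, mem_erase] at this
    exact this.1.1 rfl
  · intro I hI
    rw [mem_filter] at hI
    have : S \ I = S.erase v \ I.erase v := by
      ext u
      simp only [mem_sdiff, mem_erase]
      constructor
      · rintro ⟨h1, h2⟩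
        have h3 : u ≠ v := fun hh => h2 (hh ▸ hI.2.2)
        exact ⟨⟨h3, h1⟩, fun hh => h2 hh.2⟩
      · rintro ⟨⟨h1, h2⟩, h3⟩
        exact ⟨h2, fun hh => h3 ⟨h1, hh⟩⟩
    rw [this]

theorem r5 (h : IsCh G ch) (H X : Finset V) (t : ℝ) :
    R G ch H X t = ∑ T ∈ H.powerset, R G ch T X 0 * ch (H \ T) t := by
  have h1 : R G ch H X t = ∑ I ∈ (H \ X).powerset.filter (fun I => Indep G I),
      ∑ T' ∈ (H \ I).powerset, ch T' (-1) * ch ((H \ I) \ T') t := by
    unfold R
    refine sum_congr rfl fun I _ => ?_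
    have := h.vand (H \ I) (-1) t
    rw [← this]
    congr 1
    ring
  have h2 : ∑ T ∈ H.powerset, R G ch T X 0 * ch (H \ T) t =
      ∑ T ∈ H.powerset, ∑ I ∈ (T \ X).powerset.filter (fun I => Indep G I),
        ch (T \ I) (-1) * ch (H \ T) t := by
    refine sum_congr rfl fun T _ => ?_
    unfold R
    rw [sum_mul]
    refine sum_congr rfl fun I _ => ?_
    congr 2
    ring
  rw [h1, h2, sum_sigma', sum_sigma']
  refine Finset.sum_nbij' (fun x => ⟨x.1 ∪ x.2, x.1⟩) (fun y => ⟨y.2, y.1 \ y.2⟩) ?_ ?_ ?_ ?_ ?_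
  · rintro ⟨I, T⟩ hx
    simp only [mem_sigma, mem_filter, mem_powerset] at hx ⊢
    obtain ⟨⟨hI, hind⟩, hT⟩ := hx
    refine ⟨?_, ?_, hind⟩
    · intro u hu
      rw [mem_union] at hu
      rcases hu with hu | hu
      · exact (mem_sdiff.1 (hI hu)).1
      · exact (mem_sdiff.1 (hT hu)).1
    · intro u hu
      exact mem_sdiff.2 ⟨mem_union_left _ hu, (mem_sdiff.1 (hI hu)).2⟩
  · rintro ⟨T, I⟩ hx
    simp only [mem_sigma, mem_filter, mem_powerset] at hx ⊢
    obtain ⟨hT, hI, hind⟩ := hx
    refine ⟨⟨?_, hind⟩, ?_⟩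
    · intro u hu
      have := mem_sdiff.1 (hI hu)
      exact mem_sdiff.2 ⟨hT this.1, this.2⟩
    · intro u hu
      have := mem_sdiff.1 hu
      exact mem_sdiff.2 ⟨hT this.1, this.2⟩
  · rintro ⟨I, T⟩ hx
    simp only [mem_sigma, mem_filter, mem_powerset] at hx
    obtain ⟨⟨hI, hind⟩, hT⟩ := hx
    have : (I ∪ T) \ I = T := by
      ext u
      simp only [mem_sdiff, mem_union]
      constructor
      · rintro ⟨h3 | h3, h4⟩
        · exact absurd h3 h4
        · exact h3
      · intro h3
        exact ⟨Or.inr h3, (mem_sdiff.1 (hT h3)).2⟩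
    simp only [this]
  · rintro ⟨T, I⟩ hx
    simp only [mem_sigma, mem_filter, mem_powerset] at hx
    obtain ⟨hT, hI, hind⟩ := hx
    have : I ∪ T \ I = T := union_sdiff_of_subset fun u hu => (mem_sdiff.1 (hI hu)).1
    simp only [this]
  · rintro ⟨I, T⟩ hx
    simp only [mem_sigma, mem_filter, mem_powerset] at hx
    obtain ⟨⟨hI, hind⟩, hT⟩ := hx
    have e1 : (I ∪ T) \ I = T := by
      ext u
      simp only [mem_sdiff, mem_union]
      constructor
      · rintro ⟨h3 | h3, h4⟩
        · exact absurd h3 h4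
        · exact h3
      · intro h3
        exact ⟨Or.inr h3, (mem_sdiff.1 (hT h3)).2⟩
    have e2 : (H \ I) \ T = H \ (I ∪ T) := by
      ext u
      simp only [mem_sdiff, mem_union, not_or, and_assoc]
    simp only [e1, e2]

end

end RR

theorem t_RR : Stmt_RR := by
  intro V _ _ G _ ch h
  exact ⟨fun S v hv t => RR.r2 h S v hv t, fun H X t => RR.r5 h H X t⟩

end Pool.Agent.RZ
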