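import Mathlib
import Pool.Agent.RZ.Stmts

set_option autoImplicit false

namespace Pool.Agent.RZ

open Finset

open Pool.Agent.ChromA2 (Indep N)

namespace SS

variable {V : Type} [Fintype V] [DecidableEq V] (G : SimpleGraph V) [DecidableRel G.Adj]

theorem indep_empty : Indep G (∅ : Finset V) := by
  intro u hu
  exact absurd hu (Finset.notMem_empty u)

theorem R_empty (ch : Finset V → ℝ → ℝ) (h : IsCh G ch) (X : Finset V) (t : ℝ) :
    R G ch ∅ X t = 1 := by
  unfold R
  have h1 : ((∅ : Finset V) \ X).powerset.filter (fun I => Indep G I) = {∅} := by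
    ext I
    rw [Finset.mem_filter, Finset.mem_powerset, Finset.empty_sdiff, Finset.subset_empty,
      Finset.mem_singleton]
    constructor
    · exact fun hI => hI.1
    · rintro rfl
      exact ⟨rfl, indep_empty G⟩
  rw [h1, Finset.sum_singleton, Finset.empty_sdiff, h.empty]

theorem R_none (ch : Finset V → ℝ → ℝ) (h : IsCh G ch) (T : Finset V) (t : ℝ) :
    R G ch T ∅ t = ch T t := by
  unfold R
  rw [Finset.sdiff_empty, ← h.rec1]

theorem R_off (ch : Finset V → ℝ → ℝ) (T X : Finset V) (u : V) (hu : u ∉ T) (t : ℝ) :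
    R G ch T (insert u X) t = R G ch T X t := by
  unfold R
  have h1 : T \ insert u X = T \ X := by
    ext w
    simp only [Finset.mem_sdiff, Finset.mem_insert, not_or]
    constructor
    · rintro ⟨h1, _, h2⟩
      exact ⟨h1, h2⟩
    · rintro ⟨h1, h2⟩
      refine ⟨h1, ?_, h2⟩
      rintro rfl
      exact hu h1
  rw [h1]

theorem R_step (ch : Finset V → ℝ → ℝ) (T X : Finset V) (u : V) (hu : u ∈ T) (hX : u ∉ X)
    (t : ℝ) :
    R G ch T X t = R G ch T (insert u X) t + R G ch (T.erase u) (X ∪ G.neighborFinset u) t := by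
  unfold R
  rw [← Finset.sum_filter_add_sum_filter_not ((T \ X).powerset.filter (fun I => Indep G I))
    (fun I => u ∉ I)]
  congr 1
  · apply Finset.sum_congr _ (fun _ _ => rfl)
    ext I
    simp only [Finset.mem_filter, Finset.mem_powerset]
    constructor
    · rintro ⟨⟨h1, h2⟩, h3⟩
      refine ⟨?_, h2⟩
      intro w hw
      have h4 := Finset.mem_sdiff.1 (h1 hw)
      refine Finset.mem_sdiff.2 ⟨h4.1, ?_⟩
      rw [Finset.mem_insert, not_or]
      refine ⟨?_, h4.2⟩
      rintro rfl
      exact h3 hw
    · rintro ⟨h1, h2⟩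
      refine ⟨⟨?_, h2⟩, ?_⟩
      · intro w hw
        have h4 := Finset.mem_sdiff.1 (h1 hw)
        exact Finset.mem_sdiff.2 ⟨h4.1, fun h5 => h4.2 (Finset.mem_insert_of_mem h5)⟩
      · intro h3
        exact (Finset.mem_sdiff.1 (h1 h3)).2 (Finset.mem_insert_self u X)
  · apply Finset.sum_nbij' (fun I => I.erase u) (fun J => insert u J)
    · intro I hI
      simp only [Finset.mem_filter, Finset.mem_powerset, not_not] at hI ⊢
      obtain ⟨⟨h1, h2⟩, h3⟩ := hI
      refine ⟨?_, ?_⟩
      · intro w hw
        rw [Finset.mem_erase] at hw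
        have h4 := Finset.mem_sdiff.1 (h1 hw.2)
        refine Finset.mem_sdiff.2 ⟨Finset.mem_erase.2 ⟨hw.1, h4.1⟩, ?_⟩
        rw [Finset.mem_union, not_or]
        refine ⟨h4.2, ?_⟩
        rw [SimpleGraph.mem_neighborFinset]
        exact h2 u h3 w hw.2
      · intro a ha b hb
        exact h2 a (Finset.mem_of_mem_erase ha) b (Finset.mem_of_mem_erase hb)
    · intro J hJ
      simp only [Finset.mem_filter, Finset.mem_powerset, not_not] at hJ ⊢
      obtain ⟨h1, h2⟩ := hJ
      have h3 : ∀ w ∈ J, w ≠ u ∧ w ∈ T ∧ w ∉ X ∧ ¬ G.Adj u w := by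
        intro w hw
        have h4 := Finset.mem_sdiff.1 (h1 hw)
        have h5 := Finset.mem_erase.1 h4.1
        have h6 := h4.2
        rw [Finset.mem_union, not_or, SimpleGraph.mem_neighborFinset] at h6
        exact ⟨h5.1, h5.2, h6.1, h6.2⟩
      refine ⟨⟨?_, ?_⟩, Finset.mem_insert_self u J⟩
      · intro w hw
        rw [Finset.mem_insert] at hw
        rcases hw with rfl | hw
        · exact Finset.mem_sdiff.2 ⟨hu, hX⟩
        · exact Finset.mem_sdiff.2 ⟨(h3 w hw).2.1, (h3 w hw).2.2.1⟩
      · intro a ha b hb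
        rw [Finset.mem_insert] at ha hb
        rcases ha with rfl | ha
        · rcases hb with rfl | hb
          · exact G.loopless.irrefl _
          · exact (h3 b hb).2.2.2
        · rcases hb with rfl | hb
          · exact fun h => (h3 a ha).2.2.2 h.symm
          · exact h2 a ha b hb
    · intro I hI
      simp only [Finset.mem_filter, not_not] at hI
      exact Finset.insert_erase hI.2
    · intro J hJ
      simp only [Finset.mem_filter, Finset.mem_powerset] at hJ
      apply Finset.erase_insert
      intro h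
      exact (Finset.mem_erase.1 (Finset.mem_sdiff.1 (hJ.1 h)).1).1 rfl
    · intro I hI
      simp only [Finset.mem_filter, not_not] at hI
      have h1 : T \ I = (T.erase u) \ (I.erase u) := by
        ext w
        simp only [Finset.mem_sdiff, Finset.mem_erase, not_and]
        constructor
        · rintro ⟨h1, h2⟩
          refine ⟨⟨?_, h1⟩, fun _ => h2⟩
          rintro rfl
          exact h2 hI.2
        · rintro ⟨⟨h1, h2⟩, h3⟩
          exact ⟨h2, h3 h1⟩
      rw [h1]

theorem sg_step (ch : Finset V → ℝ → ℝ) (T X : Finset V) (u : V) (hu : u ∈ T) (hX : u ∉ X) :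
    sg G ch T (insert u X) = sg G ch T X + sg G ch (T.erase u) (X ∪ G.neighborFinset u) := by
  unfold sg
  have h1 : T.card = (T.erase u).card + 1 := (Finset.card_erase_add_one hu).symm
  rw [R_step G ch T X u hu hX 0, h1, pow_succ]
  ring

theorem sg_nonneg (ch : Finset V → ℝ → ℝ) (h : IsCh G ch) :
    ∀ n : ℕ, ∀ T : Finset V, T.card = n → ∀ X : Finset V, 0 ≤ sg G ch T X := by
  intro n
  induction n with
  | zero =>
    intro T hT X
    rw [Finset.card_eq_zero] at hT
    subst hT
    unfold sg
    rw [R_empty G ch h]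
    simp
  | succ n ih =>
    intro T hT X
    induction X using Finset.induction_on with
    | empty =>
      unfold sg
      rw [R_none G ch h, h.zero T (by rw [← Finset.card_pos, hT]; omega), mul_zero]
    | insert u X hX ih2 =>
      by_cases hu : u ∈ T
      · rw [sg_step G ch T X u hu hX]
        refine add_nonneg ih2 (ih _ ?_ _)
        rw [Finset.card_erase_of_mem hu, hT]
        omega
      · have h1 : sg G ch T (insert u X) = sg G ch T X := by
          unfold sg
          rw [R_off G ch T X u hu]
        rw [h1]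
        exact ih2

end SS

theorem t_SS : Stmt_SS := by
  intro V _ _ G _ ch h
  refine ⟨?_, ?_, ?_, ?_, ?_⟩
  · intro X
    unfold sg
    rw [SS.R_empty G ch h]
    simp
  · intro T hT
    unfold sg
    rw [SS.R_none G ch h, h.zero T hT, mul_zero]
  · intro T X u hu
    unfold sg
    rw [SS.R_off G ch T X u hu]
  · intro T X u hu hX
    exact SS.sg_step G ch T X u hu hX
  · intro T X
    exact SS.sg_nonneg G ch h _ T rfl X

end Pool.Agent.RZ
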