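import Pool.Agent.RZ.Stmts

set_option autoImplicit false

/-!
# RZ_ZD: list colourings with `t` additional generic colours
-/

namespace Pool.Agent.RZ

open Finset

open Pool.Agent.ChromA2 (Indep N)

namespace ZD

/-- Exchange of the sums over `T' ⊆ T ⊆ Y`. -/
theorem sum_exchange {V : Type} [DecidableEq V] (Y : Finset V)
    (g : Finset V → Finset V → Finset V → ℝ) :
    ∑ T ∈ Y.powerset, ∑ T' ∈ T.powerset, g T' (T \ T') (Y \ T)
      = ∑ T' ∈ Y.powerset, ∑ T'' ∈ (Y \ T').powerset, g T' T'' ((Y \ T') \ T'') := by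
  rw [Finset.sum_sigma', Finset.sum_sigma']
  refine Finset.sum_bij' (fun p _ => (⟨p.2, p.1 \ p.2⟩ : Σ _ : Finset V, Finset V))
    (fun p _ => (⟨p.1 ∪ p.2, p.1⟩ : Σ _ : Finset V, Finset V)) ?_ ?_ ?_ ?_ ?_
  · rintro ⟨T, T'⟩ h
    simp only [Finset.mem_sigma, Finset.mem_powerset] at h ⊢
    exact ⟨h.2.trans h.1, Finset.sdiff_subset_sdiff h.1 (Finset.Subset.refl _)⟩
  · rintro ⟨T', T''⟩ h
    simp only [Finset.mem_sigma, Finset.mem_powerset] at h ⊢
    exact ⟨Finset.union_subset h.1 (h.2.trans Finset.sdiff_subset), Finset.subset_union_left⟩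
  · rintro ⟨T, T'⟩ h
    simp only [Finset.mem_sigma, Finset.mem_powerset] at h
    have h1 : T' ∪ T \ T' = T := Finset.union_sdiff_of_subset h.2
    simp only [h1]
  · rintro ⟨T', T''⟩ h
    simp only [Finset.mem_sigma, Finset.mem_powerset] at h
    have hd : Disjoint T'' T' := by
      rw [Finset.disjoint_left]
      intro a ha ha'
      exact (Finset.mem_sdiff.1 (h.2 ha)).2 ha'
    have h1 : (T' ∪ T'') \ T' = T'' := by
      rw [Finset.union_sdiff_left]
      exact Finset.sdiff_eq_self_of_disjoint hd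
    simp only [h1]
  · rintro ⟨T, T'⟩ h
    simp only [Finset.mem_sigma, Finset.mem_powerset] at h
    have h1 : (Y \ T') \ (T \ T') = Y \ T := by
      ext a
      simp only [Finset.mem_sdiff]
      constructor
      · rintro ⟨⟨ha, hb⟩, hc⟩
        exact ⟨ha, fun hT => hc ⟨hT, hb⟩⟩
      · rintro ⟨ha, hb⟩
        exact ⟨⟨ha, fun hT' => hb (h.2 hT')⟩, fun hc => hb hc.1⟩
    simp only [h1]

variable {V : Type} [Fintype V] [DecidableEq V] (G : SimpleGraph V) [DecidableRel G.Adj]

/-- The sum `Z` split by the membership of `v`. -/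
theorem Z_split (ch : Finset V → ℝ → ℝ) (t : ℝ) (U : Finset V) (L : V → Finset ℕ) (v : V)
    (hv : v ∈ U) :
    Z G ch t U L = ∑ T ∈ (U.erase v).powerset, ch T t * ((LC G (U \ T) L).card : ℝ)
      + ∑ T ∈ (U.erase v).powerset,
          ch (insert v T) t * ((LC G ((U.erase v) \ T) L).card : ℝ) := by
  unfold Z
  conv_lhs => rw [← Finset.insert_erase hv]
  rw [Finset.sum_powerset_insert (Finset.notMem_erase v U)]
  rw [Finset.insert_erase hv]
  congr 1
  apply Finset.sum_congr rfl
  intro T hT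
  have h1 : U \ insert v T = (U.erase v) \ T := by
    ext a
    simp only [Finset.mem_sdiff, Finset.mem_insert, Finset.mem_erase, not_or]
    tauto
  rw [h1]

omit [Fintype V] in
theorem sdiff_erase_eq (U T : Finset V) (v : V) : (U \ T).erase v = (U.erase v) \ T := by
  ext a
  simp only [Finset.mem_sdiff, Finset.mem_erase]
  tauto

omit [Fintype V] in
theorem mem_sdiff_of_sub {U T : Finset V} {v : V} (hv : v ∈ U) (hT : T ∈ (U.erase v).powerset) :
    v ∈ U \ T := by
  rw [Finset.mem_sdiff]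
  refine ⟨hv, fun h => ?_⟩
  exact Finset.notMem_erase v U (Finset.mem_powerset.1 hT h)

theorem Z_congr (hLC : Stmt_LC) (ch : Finset V → ℝ → ℝ) (t : ℝ) (U : Finset V)
    (L L' : V → Finset ℕ) (h : ∀ v ∈ U, L v = L' v) : Z G ch t U L = Z G ch t U L' := by
  unfold Z
  apply Finset.sum_congr rfl
  intro T _
  rw [(hLC V G).2.1 (U \ T) L L' (fun v hv => h v (Finset.mem_sdiff.1 hv).1)]

theorem Z_step (hRR : Stmt_RR) (hLC : Stmt_LC) (ch : Finset V → ℝ → ℝ) (hch : IsCh G ch)
    (t : ℝ) (U : Finset V) (L : V → Finset ℕ) (v : V) (hv : v ∈ U) :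
    Z G ch t U L = ∑ c ∈ L v, Z G ch t (U.erase v) (rm L (G.neighborFinset v) c)
      + t * ∑ T ∈ (U.erase v).powerset,
          (-1) ^ T.card * sg G ch T (G.neighborFinset v) * Z G ch t ((U.erase v) \ T) L := by
  rw [Z_split G ch t U L v hv]
  congr 1
  · -- the vertex `v` is coloured from its list
    unfold Z
    rw [Finset.sum_comm]
    apply Finset.sum_congr rfl
    intro T hT
    rw [(hLC V G).2.2.1 (U \ T) L v (mem_sdiff_of_sub hv hT), sdiff_erase_eq U T v]
    push_cast
    rw [Finset.mul_sum]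
  · -- the vertex `v` has a generic colour
    have e1 : ∀ T ∈ (U.erase v).powerset,
        ch (insert v T) t * ((LC G ((U.erase v) \ T) L).card : ℝ)
          = t * ∑ T' ∈ T.powerset, R G ch T' (G.neighborFinset v) 0 * ch (T \ T') t *
              ((LC G ((U.erase v) \ T) L).card : ℝ) := by
      intro T hT
      have hvT : v ∉ T := fun h => Finset.notMem_erase v U (Finset.mem_powerset.1 hT h)
      rw [(hRR V G ch hch).1 (insert v T) v (Finset.mem_insert_self v T) t,
        Finset.erase_insert hvT, (hRR V G ch hch).2 T (G.neighborFinset v) t, mul_assoc,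
        Finset.sum_mul]
    rw [Finset.sum_congr rfl e1, ← Finset.mul_sum]
    congr 1
    rw [sum_exchange (U.erase v) (fun T' T'' W =>
      R G ch T' (G.neighborFinset v) 0 * ch T'' t * ((LC G W L).card : ℝ))]
    apply Finset.sum_congr rfl
    intro T' _
    have e2 : (-1 : ℝ) ^ T'.card * sg G ch T' (G.neighborFinset v)
        = R G ch T' (G.neighborFinset v) 0 := by
      unfold sg
      rw [← mul_assoc, ← mul_pow]
      norm_num
    rw [e2]
    unfold Z
    rw [Finset.mul_sum]
    apply Finset.sum_congr rfl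
    intro T'' _
    ring

theorem Z_cut (hLC : Stmt_LC) (ch : Finset V → ℝ → ℝ) (t : ℝ) (U : Finset V)
    (L : V → Finset ℕ) (u : V) (c : ℕ) (hu : u ∈ U) (hc : c ∈ L u) :
    Z G ch t U L = Z G ch t U (rm L {u} c)
      + Z G ch t (U.erase u) (rm L (G.neighborFinset u) c) := by
  rw [Z_split G ch t U L u hu, Z_split G ch t U (rm L {u} c) u hu]
  have e1 : ∑ T ∈ (U.erase u).powerset, ch T t * ((LC G (U \ T) L).card : ℝ)
      = ∑ T ∈ (U.erase u).powerset, ch T t * ((LC G (U \ T) (rm L {u} c)).card : ℝ)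
        + Z G ch t (U.erase u) (rm L (G.neighborFinset u) c) := by
    unfold Z
    rw [← Finset.sum_add_distrib]
    apply Finset.sum_congr rfl
    intro T hT
    rw [(hLC V G).2.2.2.1 (U \ T) L u c (mem_sdiff_of_sub hu hT) hc, sdiff_erase_eq U T u]
    push_cast
    ring
  have e2 : ∑ T ∈ (U.erase u).powerset,
        ch (insert u T) t * ((LC G ((U.erase u) \ T) L).card : ℝ)
      = ∑ T ∈ (U.erase u).powerset,
        ch (insert u T) t * ((LC G ((U.erase u) \ T) (rm L {u} c)).card : ℝ) := by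
    apply Finset.sum_congr rfl
    intro T _
    rw [(hLC V G).2.1 ((U.erase u) \ T) L (rm L {u} c) (fun w hw => ?_)]
    have hwu : w ≠ u := (Finset.mem_erase.1 (Finset.mem_sdiff.1 hw).1).1
    unfold rm
    rw [if_neg (fun h => hwu (Finset.mem_singleton.1 h))]
  rw [e1, e2]
  ring

end ZD

theorem t_ZD (hRR : Stmt_RR) (hLC : Stmt_LC) : Stmt_ZD := by
  intro V _ _ G _ ch hch t
  refine ⟨⟨?_, ?_, ?_, ?_⟩, ?_⟩
  · intro U L L' h
    exact ZD.Z_congr G hLC ch t U L L' h
  · intro L
    unfold Z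
    rw [Finset.powerset_empty, Finset.sum_singleton, hch.empty, Finset.sdiff_self,
      (hLC V G).1 L]
    norm_num
  · intro U L v hv
    exact ZD.Z_step G hRR hLC ch hch t U L v hv
  · intro U L u c hu hc
    exact ZD.Z_cut G hLC ch t U L u c hu hc
  · intro U n
    rw [hch.vand U t n]
    unfold Z
    apply Finset.sum_congr rfl
    intro T _
    rw [(hLC V G).2.2.2.2 (U \ T) n, hch.nat (U \ T) n]

end Pool.Agent.RZ
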